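import Pool.Graph.R_seed8.Y925.NV.DGN1L
import Pool.Graph.R_pool_sql_team_seeded_b677cdb8.E8helper60.AW.Tn
import Pool.Agent.Helper18.AW.Bq

/-!
# Characters of defect zero and blocks with simple block algebra
-/

set_option autoImplicit false
set_option linter.unusedSectionVars false

open scoped Classical
open MonoidAlgebra

noncomputable section

namespace Pool.Agent.Helper18.NV

open Pool.Agent.Helper18.BR Pool.Agent.Helper18.AW
open Pool.Agent.Y63.AWC (IsIrreducibleCharacter)
open Pool.Agent.Y63.NV (redC centralValue)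
open Pool.Agent.Y930.NV (Cf cv R)
open Pool.Agent.Y925.NV (kk md)
open Pool.Agent.Helper884.IC (Irr mem_Irr)

section ring

theorem isBlock_of_simpleAt {A : Type} [Ring A] {d : A} (h0 : d ≠ 0) (h1 : d * d = d)
    (h2 : ∀ x, d * x = x * d) (h3 : SimpleAt d) : IsBlock d := by
  refine ⟨h0, h1, h2, fun f hf1 hf2 hf3 => ?_⟩
  by_cases hf : f = 0
  · exact Or.inl hf
  · right
    obtain ⟨ι, _, a, b, hab⟩ := h3 f (by rw [hf3]; exact hf)
    rw [hf3] at hab
    have h4 : f * d = d := by
      rw [← hab, Finset.mul_sum]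
      refine Finset.sum_congr rfl fun i _ => ?_
      calc f * (a i * f * b i) = f * a i * f * b i := by simp only [mul_assoc]
        _ = a i * (f * f) * b i := by rw [hf2 (a i)]; simp only [mul_assoc]
        _ = a i * f * b i := by rw [hf1]
    rw [hf2, hf3] at h4
    exact h4

end ring

section cls

variable {J : Type} [Group J] [Fintype J] {F : Type} [Field F]

theorem mk_mul (f g : J → F) : (mk f * mk g : MonoidAlgebra F J) = mk (cv f g) := by
  ext x
  rw [coeff_mul_sum]
  rfl

theorem mk_inj {f g : J → F} (h : (mk f : MonoidAlgebra F J) = mk g) : f = g := by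
  funext x
  rw [← mk_coeff f x, h, mk_coeff]

theorem mk_self (a : MonoidAlgebra F J) : mk (fun x => a.coeff x) = a := by
  ext x
  rfl

theorem cj_mk {f : J → F} (h : Cf f) (x : J) : cj x (mk f) = (mk f : MonoidAlgebra F J) := by
  ext y
  rw [cj_coeff, mk_coeff, mk_coeff]
  have := h x⁻¹ y
  rwa [inv_inv] at this

theorem central_mk {f : J → F} (h : Cf f) (x : MonoidAlgebra F J) : mk f * x = x * mk f :=
  central_of_cj (cj_mk h) x

theorem cf_of_central {a : MonoidAlgebra F J} (h : ∀ x, cj x a = a) : Cf (fun x => a.coeff x) := by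
  intro g x
  have h1 := congrArg (fun b : MonoidAlgebra F J => b.coeff (g * x * g⁻¹)) (h g)
  simp only [cj_coeff] at h1
  change a.coeff (g * x * g⁻¹) = a.coeff x
  rw [← h1]
  congr 1
  group

/-- sums over conjugates -/
theorem sum_conj (f : J → F) (b : J) :
    ∑ h : J, f (h * b * h⁻¹) = (kk b : F) * ∑ y : J, Pool.Agent.Y930.NV.ind F (ConjClasses.mk b) y * f y := by
  rw [← Finset.sum_fiberwise (Finset.univ : Finset J) (fun h => h * b * h⁻¹), Finset.mul_sum]
  refine Finset.sum_congr rfl fun y _ => ?_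
  rw [Finset.sum_congr rfl (g := fun _ => f y) fun h hh => by rw [(Finset.mem_filter.1 hh).2],
    Finset.sum_const, nsmul_eq_mul, ← mul_assoc]
  congr 1
  by_cases hy : ConjClasses.mk y = ConjClasses.mk b
  · rw [Pool.Agent.Y930.NV.ind, if_pos hy, mul_one]
    rw [eq_comm, ConjClasses.mk_eq_mk_iff_isConj, isConj_iff] at hy
    obtain ⟨c, hc⟩ := hy
    congr 1
    unfold kk
    rw [Nat.card_eq_fintype_card, Fintype.card_subtype]
    refine Finset.card_bij' (fun h _ => c⁻¹ * h) (fun h _ => c * h) ?_ ?_ ?_ ?_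
    · intro h hh
      rw [Finset.mem_filter] at hh ⊢
      refine ⟨Finset.mem_univ _, ?_⟩
      have h1 : c⁻¹ * h * b * (c⁻¹ * h)⁻¹ = c⁻¹ * (h * b * h⁻¹) * c := by group
      rw [h1, hh.2, ← hc]
      group
    · intro h hh
      rw [Finset.mem_filter] at hh ⊢
      refine ⟨Finset.mem_univ _, ?_⟩
      have h1 : c * h * b * (c * h)⁻¹ = c * (h * b * h⁻¹) * c⁻¹ := by group
      rw [h1, hh.2, hc]
    · intro h _
      simp
    · intro h _
      simp
  · rw [Pool.Agent.Y930.NV.ind, if_neg hy, mul_zero, Finset.filter_eq_empty_iff.2, Finset.card_empty, Nat.cast_zero]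
    rintro h _ rfl
    exact hy (Pool.Agent.Y930.NV.mk_conj h b)

end cls

section dd

variable {J : Type} [Group J] [Fintype J] {F : Type} [Field F] (red : integralClosure ℤ ℂ →+* F)

/-- the function `g ↦ χ(g⁻¹)` modulo `p` -/
def EE (χ : J → ℂ) : J → F := fun g => redC red (χ g⁻¹)

/-- the block idempotent of a character of defect zero -/
def dd (χ : J → ℂ) : MonoidAlgebra F J := (md χ : F)⁻¹ • mk (EE red χ)

variable {red} {χ ψ : J → ℂ} (h : IsIrreducibleCharacter χ) (hm : (md χ : F) ≠ 0)

include h in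
theorem EE_cf : Cf (EE red χ) := by
  intro g x
  unfold EE
  have : (g * x * g⁻¹)⁻¹ = g * x⁻¹ * g⁻¹ := by group
  rw [this, Pool.Agent.Y930.NV.irr_Cf h]

include h in
theorem mk_mul_EE {f : J → F} (hf : Cf f) :
    (mk f * mk (EE red χ) : MonoidAlgebra F J) = centralValue red χ f • mk (EE red χ) := by
  ext x
  rw [mk_mul, mk_coeff, coeff_smul, Finsupp.smul_apply, mk_coeff, smul_eq_mul]
  have h1 := Pool.Agent.Y925.NV.tr_z red h hf x⁻¹
  unfold EE cv
  rw [← h1]
  refine Finset.sum_congr rfl fun y _ => ?_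
  change f y * redC red (χ (y⁻¹ * x)⁻¹) = _
  rw [mul_inv_rev, inv_inv]

include h in
theorem mk_mul_dd {f : J → F} (hf : Cf f) :
    mk f * dd red χ = centralValue red χ f • dd red χ := by
  unfold dd
  rw [mul_smul_comm, mk_mul_EE h hf, smul_comm]

include h hm in
theorem EE_ne : (mk (EE red χ) : MonoidAlgebra F J) ≠ 0 := by
  intro h0
  have h1 := Pool.Agent.Y925.NV.orth_self red h
  have h2 : EE red χ = fun _ => 0 := by
    funext x
    rw [← mk_coeff (EE red χ) x, h0]
    rfl
  unfold EE at h2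
  rw [h2, Pool.Agent.Y925.NV.cv_zero red h] at h1
  exact hm h1.symm

include h hm in
theorem dd_ne : dd red χ ≠ 0 := by
  unfold dd
  exact smul_ne_zero (inv_ne_zero hm) (EE_ne h hm)

include h in
theorem dd_central (x : MonoidAlgebra F J) : dd red χ * x = x * dd red χ := by
  unfold dd
  rw [smul_mul_assoc, mul_smul_comm, central_mk (EE_cf h)]

include h hm in
theorem dd_idem : dd red χ * dd red χ = dd red χ := by
  conv_lhs => lhs; unfold dd
  rw [smul_mul_assoc, mk_mul_dd h (EE_cf h)]
  have h1 : centralValue red χ (EE red χ) = md χ := Pool.Agent.Y925.NV.orth_self red h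
  rw [h1, smul_smul, inv_mul_cancel₀ hm, one_smul]

include h in
/-- the relation of Schur -/
theorem schur (a b : J) : ∑ t : J, redC red (χ (a * (t * b * t⁻¹))) =
    md χ * redC red (χ b) * redC red (χ a) := by
  have h1 := sum_conj (F := F) (fun y => redC red (χ (a * y))) b
  rw [h1, Pool.Agent.Y925.NV.tr_z red h (Pool.Agent.Y930.NV.Cf_ind F _), ← mul_assoc]
  congr 1
  have h2 := Pool.Agent.Y925.NV.kR red h (ConjClasses.mk b)
  rw [Pool.Agent.Y930.NV.Cf_out Pool.Agent.Y925.NV.kk_Cf rfl,
    Pool.Agent.Y930.NV.Cf_out (Pool.Agent.Y930.NV.irr_Cf h) rfl] at h2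
  rw [← h2]
  congr 1
  rw [Pool.Agent.Y930.NV.centralValue_eq red h, Finset.sum_eq_single (ConjClasses.mk b)]
  · rw [Pool.Agent.Y930.NV.ind_out, if_pos rfl, one_mul]
  · intro C _ hC
    rw [Pool.Agent.Y930.NV.ind_out, if_neg hC, zero_mul]
  · intro hC
    exact absurd (Finset.mem_univ _) hC

include h in
/-- the relative trace of an element of the block algebra -/
theorem trace_EE (y : MonoidAlgebra F J) : ∑ t : J, cj t (mk (EE red χ) * y) =
    (md χ * (mk (EE red χ) * y).coeff 1) • mk (EE red χ) := by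
  induction y using MonoidAlgebra.induction_linear with
  | zero => simp [cj]
  | add a b ha hb =>
    rw [Finset.sum_congr rfl (g := fun t => cj t (mk (EE red χ) * a) + cj t (mk (EE red χ) * b))
      fun t _ => by rw [mul_add, cj_add], Finset.sum_add_distrib, ha, hb, mul_add, coeff_add,
      Finsupp.add_apply, mul_add, add_smul]
  | single b r =>
    ext x
    rw [coeff_sum, Finset.sum_apply', coeff_smul, Finsupp.smul_apply, mk_coeff, smul_eq_mul,
      coeff_mul_single_apply, mk_coeff]
    have h1 : ∀ t : J, (cj t (mk (EE red χ) * single b r)).coeff x =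
        redC red (χ (x⁻¹ * (t * b * t⁻¹))) * r := by
      intro t
      rw [cj_coeff, coeff_mul_single_apply, mk_coeff]
      unfold EE
      congr 2
      have h2 := Pool.Agent.Y930.NV.irr_Cf h (x⁻¹ * t) (t⁻¹ * x * t * b⁻¹)⁻¹
      rw [← h2]
      congr 1
      group
    rw [Finset.sum_congr rfl fun t _ => h1 t, ← Finset.sum_mul, schur h]
    unfold EE
    rw [one_mul, inv_inv]
    ring

include h hm in
theorem dd_simple : SimpleAt (dd red χ) := by
  intro x hx
  obtain ⟨g, hg⟩ : ∃ g, (mk (EE red χ) * x).coeff g ≠ 0 := by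
    by_contra hno
    push Not at hno
    apply hx
    unfold dd
    rw [smul_mul_assoc]
    have : mk (EE red χ) * x = 0 := by
      ext g
      exact hno g
    rw [this, smul_zero]
  have h1 : (mk (EE red χ) * (x * single g⁻¹ 1)).coeff 1 = (mk (EE red χ) * x).coeff g := by
    rw [← mul_assoc, coeff_mul_single_apply, one_mul, inv_inv, mul_one]
  have h2 := trace_EE (red := red) h (x * single g⁻¹ 1)
  rw [h1] at h2
  set c : F := md χ * (mk (EE red χ) * x).coeff g with hc
  have hc0 : c ≠ 0 := mul_ne_zero hm hg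
  refine ⟨J, inferInstance, fun t => (c⁻¹ : F) • single t 1,
    fun t => single g⁻¹ 1 * single t⁻¹ 1, ?_⟩
  have h3 : ∀ t : J, (c⁻¹ : F) • single t (1 : F) * (dd red χ * x) *
      (single g⁻¹ 1 * single t⁻¹ 1) =
      (c⁻¹ * (md χ : F)⁻¹) • cj t (mk (EE red χ) * (x * single g⁻¹ 1)) := by
    intro t
    unfold dd cj
    simp only [smul_mul_assoc, mul_smul_comm, smul_smul, mul_assoc]
    rw [mul_comm]
  rw [Finset.sum_congr rfl fun t _ => h3 t, ← Finset.smul_sum, h2, smul_smul]
  unfold dd
  congr 1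
  field_simp

include h hm in
theorem dd_isBlock : IsBlock (dd red χ) :=
  isBlock_of_simpleAt (dd_ne h hm) (dd_idem h hm) (dd_central h) (dd_simple h hm)

include h hm in
theorem dd_inj (h' : IsIrreducibleCharacter ψ) (he : dd red χ = dd red ψ) : χ = ψ := by
  by_contra hne
  have h1 : dd red ψ * dd red χ = 0 := by
    conv_lhs => lhs; unfold dd
    rw [smul_mul_assoc, mk_mul_dd h (EE_cf h')]
    have h2 : centralValue red χ (EE red ψ) = 0 := Pool.Agent.Y925.NV.orth_ne red h' h hne
    rw [h2, zero_smul, smul_zero]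
  rw [← he, dd_idem h hm] at h1
  exact dd_ne h hm h1

end dd

end Pool.Agent.Helper18.NV
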