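import Pool.Agent.Helper18.NV.Dz
import Pool.Agent.Helper18.AW.Orb

/-!
# Characters of defect zero and blocks with simple block algebra, II
-/

set_option autoImplicit false
set_option linter.unusedSectionVars false
set_option maxHeartbeats 4000000

open scoped Classical
open MonoidAlgebra

noncomputable section

namespace Pool.Agent.Helper18.NV

open Pool.Agent.Helper18.BR Pool.Agent.Helper18.AW
open Pool.Agent.Y63.AWC (IsIrreducibleCharacter)
open Pool.Agent.Y63.NV (redC centralValue IsWt)
open Pool.Agent.Y930.NV (Cf cv R)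
open Pool.Agent.Y925.NV (kk md)
open Pool.Agent.Helper884.IC (Irr mem_Irr)

section mat

variable {J : Type} [Group J] [Finite J] {F : Type} [Field F] [IsAlgClosed F]

/-- a nonzero central idempotent acts as the identity on some simple module -/
theorem exists_mat {z : MonoidAlgebra F J} (h0 : z ≠ 0) (h1 : z * z = z)
    (h2 : ∀ x, z * x = x * z) :
    ∃ (d : ℕ) (_ : NeZero d) (π : MonoidAlgebra F J →ₐ[F] Matrix (Fin d) (Fin d) F),
      Function.Surjective π ∧ π z = 1 := by
  let L0 : Ideal (MonoidAlgebra F J) := Ideal.span {1 - z}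
  have hL0 : L0 ≠ ⊤ := by
    intro h
    have h3 : z ∈ L0 := by rw [h]; trivial
    obtain ⟨a, ha⟩ := Ideal.mem_span_singleton'.1 h3
    apply h0
    rw [← h1]
    nth_rewrite 1 [← ha]
    rw [mul_assoc, sub_mul, one_mul, h1, sub_self, mul_zero]
  obtain ⟨L, hL, hL1⟩ := Ideal.exists_le_maximal L0 hL0
  have hs : IsSimpleModule (MonoidAlgebra F J) (MonoidAlgebra F J ⧸ L) :=
    isSimpleModule_iff_isCoatom.2 hL.1
  let V := MonoidAlgebra F J ⧸ L
  have : Module.Finite F V :=
    Module.Finite.of_surjective ((Submodule.mkQ L).restrictScalars F) (Submodule.mkQ_surjective L)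
  have hnt : Nontrivial V := IsSimpleModule.nontrivial (MonoidAlgebra F J) V
  have hd : Module.finrank F V ≠ 0 := Module.finrank_pos.ne'
  let π : MonoidAlgebra F J →ₐ[F] Matrix (Fin (Module.finrank F V)) (Fin (Module.finrank F V)) F :=
    (LinearMap.toMatrixAlgEquiv (Module.finBasis F V)).toAlgHom.comp
      (Algebra.lsmul F F V : MonoidAlgebra F J →ₐ[F] Module.End F V)
  refine ⟨Module.finrank F V, ⟨hd⟩, π, ?_, ?_⟩
  · intro M
    obtain ⟨a, ha⟩ := Pool.Agent.Y914.NV.burn (F := F) (A := MonoidAlgebra F J) (V := V)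
      ((LinearMap.toMatrixAlgEquiv (Module.finBasis F V)).symm M)
    refine ⟨a, ?_⟩
    have h3 : (Algebra.lsmul F F V : MonoidAlgebra F J →ₐ[F] Module.End F V) a =
        (LinearMap.toMatrixAlgEquiv (Module.finBasis F V)).symm M := by
      ext v
      exact ha v
    change (LinearMap.toMatrixAlgEquiv (Module.finBasis F V)) (Algebra.lsmul F F V a) = M
    rw [h3, AlgEquiv.apply_symm_apply]
  · have h3 : (Algebra.lsmul F F V : MonoidAlgebra F J →ₐ[F] Module.End F V) z = 1 := by
      ext v
      obtain ⟨x, rfl⟩ := Submodule.mkQ_surjective L v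
      change z • (Submodule.mkQ L x) = Submodule.mkQ L x
      rw [← map_smul, ← sub_eq_zero, ← map_sub, Submodule.mkQ_apply, Submodule.Quotient.mk_eq_zero,
        smul_eq_mul]
      have h4 : z * x - x = (-x) * (1 - z) := by
        rw [h2, mul_sub, mul_one, neg_mul]
        abel
      rw [h4]
      exact L.mul_mem_left _ (hL1 (Ideal.subset_span rfl))
    change (LinearMap.toMatrixAlgEquiv (Module.finBasis F V)) (Algebra.lsmul F F V z) = 1
    rw [h3, map_one]

end mat

section surj

variable {J : Type} [Group J] [Fintype J] {F : Type} [Field F]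

theorem coeff_one_comm (x y : MonoidAlgebra F J) : (x * y).coeff 1 = (y * x).coeff 1 := by
  rw [coeff_mul_sum, coeff_mul_sum]
  refine Fintype.sum_equiv (Equiv.inv J) _ _ fun g => ?_
  rw [Equiv.inv_apply, inv_inv, mul_one, mul_one, mul_comm]

theorem coeff_eq_one (x : MonoidAlgebra F J) (g : J) :
    x.coeff g = (x * single g⁻¹ 1).coeff 1 := by
  rw [coeff_mul_single_apply, one_mul, inv_inv, mul_one]

theorem sum_single (x : MonoidAlgebra F J) : x = ∑ g : J, x.coeff g • single g 1 := by
  ext t
  rw [coeff_sum, Finset.sum_apply', Finset.sum_eq_single t]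
  · rw [coeff_smul, Finsupp.smul_apply, coeff_single, Finsupp.single_eq_same, smul_eq_mul, mul_one]
  · intro b _ hb
    rw [coeff_smul, Finsupp.smul_apply, coeff_single, Finsupp.single_apply, if_neg hb, smul_zero]
  · intro h
    exact absurd (Finset.mem_univ _) h

variable {n : ℕ} [NeZero n] (π : MonoidAlgebra F J →ₐ[F] Matrix (Fin n) (Fin n) F)
  (hs : Function.Surjective π) {d : MonoidAlgebra F J} (hd1 : π d = 1)
  (hc : ∀ x, d * x = x * d) (hS : SimpleAt d)

include hd1 hS in
theorem ker_simple {a : MonoidAlgebra F J} (ha : π a = 0) : d * a = 0 := by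
  by_contra hne
  obtain ⟨ι, _, x, y, hxy⟩ := hS a hne
  have h1 := congrArg π hxy
  rw [hd1, map_sum, Finset.sum_eq_zero fun i _ => by
    rw [map_mul, map_mul, map_mul, ha, mul_zero, mul_zero, zero_mul]] at h1
  exact zero_ne_one h1

include hs hd1 hc hS in
theorem exists_c : ∃ c : F, ∀ a, (d * a).coeff 1 = c * (π a).trace := by
  have key : ∀ a b, π a = π b → (d * a).coeff 1 = (d * b).coeff 1 := by
    intro a b hab
    have h1 := ker_simple π hd1 hS (a := a - b) (by rw [map_sub, hab, sub_self])
    rw [mul_sub, sub_eq_zero] at h1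
    rw [h1]
  let t : Matrix (Fin n) (Fin n) F →ₗ[F] F :=
    { toFun := fun M => (d * Function.surjInv hs M).coeff 1
      map_add' := by
        intro M N
        rw [key _ (Function.surjInv hs M + Function.surjInv hs N) (by
          rw [map_add, Function.surjInv_eq hs, Function.surjInv_eq hs, Function.surjInv_eq hs]),
          mul_add, coeff_add, Finsupp.add_apply]
      map_smul' := by
        intro r M
        rw [key _ (r • Function.surjInv hs M) (by
          rw [map_smul, Function.surjInv_eq hs, Function.surjInv_eq hs]),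
          mul_smul_comm, coeff_smul, Finsupp.smul_apply, RingHom.id_apply] }
  have ht : ∀ X Y, t (X * Y) = t (Y * X) := by
    intro X Y
    change (d * Function.surjInv hs (X * Y)).coeff 1 = (d * Function.surjInv hs (Y * X)).coeff 1
    rw [key (Function.surjInv hs (X * Y)) (Function.surjInv hs X * Function.surjInv hs Y) (by
      rw [map_mul, Function.surjInv_eq hs, Function.surjInv_eq hs, Function.surjInv_eq hs]),
      key (Function.surjInv hs (Y * X)) (Function.surjInv hs Y * Function.surjInv hs X) (by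
      rw [map_mul, Function.surjInv_eq hs, Function.surjInv_eq hs, Function.surjInv_eq hs]),
      ← mul_assoc, coeff_one_comm, ← mul_assoc, ← hc, mul_assoc]
  refine ⟨t (Matrix.single 0 0 1), fun a => ?_⟩
  rw [← Pool.Agent.Y275.NV.functional_eq t ht]
  exact key _ _ (Function.surjInv_eq hs _).symm

include hs hd1 hc hS in
/-- a block with a simple block algebra vanishes at the elements with a centralizer of order
divisible by `p` -/
theorem coeff_zero (hd0 : d ≠ 0) {g : J} (hg : (kk g : F) = 0) : d.coeff g = 0 := by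
  obtain ⟨c, hcc⟩ := exists_c π hs hd1 hc hS
  have hc0 : c ≠ 0 := by
    rintro rfl
    apply hd0
    ext x
    rw [coeff_eq_one, hcc, zero_mul]
    rfl
  have hexp : ∀ A : Matrix (Fin n) (Fin n) F,
      A = ∑ t : J, (c * (A * π (single t⁻¹ 1)).trace) • π (single t 1) := by
    intro A
    obtain ⟨a, rfl⟩ := hs A
    have h1 : π (d * a) = π a := by rw [map_mul, hd1, one_mul]
    rw [← h1]
    conv_lhs => rw [sum_single (d * a), map_sum]
    refine Finset.sum_congr rfl fun t _ => ?_
    rw [map_smul, coeff_eq_one, mul_assoc, hcc, map_mul, map_mul, hd1, one_mul]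
  have hrel : ∀ i j a b : Fin n, (if i = a ∧ j = b then (1 : F) else 0) =
      c * ∑ t : J, π (single t⁻¹ 1) j i * π (single t 1) a b := by
    intro i j a b
    have h1 := congrFun (congrFun (hexp (Matrix.single i j 1)) a) b
    rw [Matrix.single_apply] at h1
    rw [h1, Matrix.sum_apply, Finset.mul_sum]
    refine Finset.sum_congr rfl fun t _ => ?_
    rw [Matrix.smul_apply, Matrix.trace_single_mul, one_smul, smul_eq_mul, mul_assoc]
  have htr : ∀ B : Matrix (Fin n) (Fin n) F, ∀ a i : Fin n,
      c * ∑ t : J, (π (single t 1) * B * π (single t⁻¹ 1)) a i = if i = a then B.trace else 0 := by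
    intro B a i
    have h1 : ∀ t : J, (π (single t 1) * B * π (single t⁻¹ 1)) a i =
        ∑ j, ∑ b, B b j * (π (single t⁻¹ 1) j i * π (single t 1) a b) := by
      intro t
      rw [Matrix.mul_apply]
      refine Finset.sum_congr rfl fun j _ => ?_
      rw [Matrix.mul_apply, Finset.sum_mul]
      refine Finset.sum_congr rfl fun b _ => ?_
      ring
    rw [Finset.sum_congr rfl fun t _ => h1 t, Finset.sum_comm, Finset.mul_sum]
    have h2 : ∀ j : Fin n, c * ∑ t : J, ∑ b, B b j * (π (single t⁻¹ 1) j i * π (single t 1) a b) =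
        if i = a then B j j else 0 := by
      intro j
      rw [Finset.sum_comm, Finset.mul_sum, Finset.sum_eq_single j]
      · rw [← Finset.mul_sum, mul_left_comm, ← hrel]
        split_ifs with h3 h4 h4
        · rw [mul_one]
        · exact absurd h3.1 h4
        · exact absurd ⟨h4, rfl⟩ h3
        · rw [mul_zero]
      · intro b _ hb
        rw [← Finset.mul_sum, mul_left_comm, ← hrel, if_neg (fun h => hb h.2.symm), mul_zero]
      · intro h
        exact absurd (Finset.mem_univ _) h
    rw [Finset.sum_congr rfl fun j _ => h2 j]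
    split_ifs
    · rfl
    · exact Finset.sum_const_zero
  have hginv : (kk g⁻¹ : F) = 0 := by rw [Pool.Agent.Y925.NV.kk_inv, hg]
  rw [coeff_eq_one, hcc]
  have h1 := htr (π (single g⁻¹ 1)) 0 0
  rw [if_pos rfl] at h1
  rw [← h1]
  have h2 : ∑ t : J, (π (single t 1) * π (single g⁻¹ 1) * π (single t⁻¹ 1)) 0 0 = 0 := by
    have h3 := sum_conj (F := F) (fun y => (π (single y 1)) 0 0) g⁻¹
    rw [hginv, zero_mul] at h3
    rw [← h3]
    refine Finset.sum_congr rfl fun t _ => ?_
    rw [← map_mul, ← map_mul, single_mul_single, single_mul_single, mul_one, mul_one]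
  rw [h2, mul_zero, mul_zero]

end surj

section count

variable {J : Type} [Group J] [Fintype J] {F : Type} [Field F] [IsAlgClosed F]
  (red : integralClosure ℤ ℂ →+* F)

theorem exists_dd {d : MonoidAlgebra F J} (hb : IsBlock d) (hS : SimpleAt d) :
    ∃ χ : J → ℂ, IsIrreducibleCharacter χ ∧ (md χ : F) ≠ 0 ∧ dd red χ = d := by
  obtain ⟨n, _, π, hs, hd1⟩ := exists_mat hb.1 hb.2.1 hb.2.2.1
  have hcf : Cf (fun x => d.coeff x) := cf_of_central (cj_of_central hb.2.2.1)
  have hz : ∀ x, (kk x : F) = 0 → d.coeff x = 0 := fun x hx =>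
    coeff_zero π hs hd1 hb.2.2.1 hS hb.1 hx
  have h1 := Pool.Agent.Y925.NV.cv_eq red hcf hcf hz hz
  have h2 : cv (fun x => d.coeff x) (fun x => d.coeff x) = fun x => d.coeff x := by
    apply mk_inj (F := F)
    rw [← mk_mul, mk_self, hb.2.1]
  obtain ⟨g, hg⟩ : ∃ g, d.coeff g ≠ 0 := by
    by_contra hno
    push Not at hno
    exact hb.1 (by ext g; exact hno g)
  rw [← congrFun h2 g, h1 g] at hg
  obtain ⟨χ, hχ, hne⟩ := Finset.exists_ne_zero_of_sum_ne_zero hg
  have hirr := mem_Irr.1 hχ
  have hm : (md χ : F) ≠ 0 := by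
    intro h
    rw [h, inv_zero, zero_mul, zero_mul, zero_mul] at hne
    exact hne rfl
  have hv : centralValue red χ (fun x => d.coeff x) ≠ 0 := by
    intro h
    rw [h, mul_zero, zero_mul] at hne
    exact hne rfl
  refine ⟨χ, hirr, hm, ?_⟩
  by_contra hno
  have h3 := block_orth hb (dd_isBlock hirr hm) (fun h => hno h.symm)
  have h4 := mk_mul_dd (red := red) hirr hcf
  rw [mk_self, h3] at h4
  exact smul_ne_zero hv (dd_ne hirr hm) h4.symm

/-- The characters of defect zero whose central character has the value `1` at `f` are as many as the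
blocks `d` with simple block algebra and `f d = d`. -/
theorem card_dz {f : J → F} (hf : Cf f) :
    Nat.card {χ : J → ℂ // (IsIrreducibleCharacter χ ∧ (md χ : F) ≠ 0) ∧
      centralValue red χ f = 1} = zz (mk f : MonoidAlgebra F J) := by
  unfold zz
  refine Nat.card_congr (Equiv.ofBijective (fun χ => ⟨dd red χ.1,
    dd_isBlock χ.2.1.1 χ.2.1.2, dd_simple χ.2.1.1 χ.2.1.2, by
      rw [mk_mul_dd χ.2.1.1 hf, χ.2.2, one_smul]⟩) ⟨?_, ?_⟩)
  · intro χ ψ hχ
    exact Subtype.ext (dd_inj χ.2.1.1 χ.2.1.2 ψ.2.1.1 (congrArg (fun d => d.1) hχ))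
  · rintro ⟨d, hb, hS, hd⟩
    obtain ⟨χ, h1, h2, rfl⟩ := exists_dd red hb hS
    refine ⟨⟨χ, ⟨h1, h2⟩, ?_⟩, rfl⟩
    rw [mk_mul_dd h1 hf] at hd
    have h3 : (centralValue red χ f - 1) • dd red χ = 0 := by
      rw [sub_smul, hd, one_smul, sub_self]
    exact sub_eq_zero.1 ((smul_eq_zero.1 h3).resolve_right (dd_ne h1 h2))

theorem isWt_bot {p : ℕ} [Fact p.Prime] [CharP F p] {χ : J → ℂ} :
    IsWt p (⊥ : Subgroup J) χ ↔ IsIrreducibleCharacter χ ∧ (md χ : F) ≠ 0 := by
  constructor
  · intro h
    refine ⟨h.irr, ?_⟩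
    rw [Ne, CharP.cast_eq_zero_iff F p, ← Pool.Agent.Y925.NV.dz_iff h.irr]
    obtain ⟨n, h1, h2⟩ := h.defectZero
    refine ⟨n, h1, ?_⟩
    rw [Nat.card_unique, Nat.factorization_one] at h2
    simpa using h2
  · rintro ⟨h1, h2⟩
    rw [Ne, CharP.cast_eq_zero_iff F p, ← Pool.Agent.Y925.NV.dz_iff h1] at h2
    obtain ⟨n, h3, h4⟩ := h2
    refine ⟨h1, fun q hq x => ?_, n, h3, ?_⟩
    · rw [Subgroup.mem_bot.1 hq, one_mul]
    · rw [Nat.card_unique, Nat.factorization_one]
      simpa using h4

end count

end Pool.Agent.Helper18.NV
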