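import Pool.Agent.Helper18.AW.Kp

/-!
# Numbers of weights with a condition on the subgroup
-/

set_option autoImplicit false
set_option linter.unusedSectionVars false

open scoped Classical
open MonoidAlgebra

noncomputable section

namespace Pool.Agent.Helper18.NV

open Pool.Agent.Helper18.BR Pool.Agent.Helper18.AW

/-- the number of weights of `e` whose subgroup satisfies `P` -/
def wtP {k : Type} [CommRing k] {X : Type} [Group X] [Finite X] (p : ℕ) (P : PSub p X → Prop)
    (e : MonoidAlgebra k X) : ℕ :=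
  ∑ᶠ c : MulAction.orbitRel.Quotient X (PSub p X),
    if P (Quotient.out c) then zz (brq (Quotient.out c).1 e) else 0

section conj

variable {k : Type} [CommRing k] {X : Type} [Group X] [Finite X]

theorem card_mul_wtP (p : ℕ) {P : PSub p X → Prop} (hP : ∀ (x : X) (Q : PSub p X), P (x • Q) ↔ P Q)
    {a : MonoidAlgebra k X} (ha : ∀ x, cj x a = a) [Fintype (PSub p X)] :
    Nat.card X * wtP p P a =
      ∑ Q : PSub p X, if P Q then Nat.card (Nm Q.1) * zz (brq Q.1 a) else 0 := by
  have : Fintype (MulAction.orbitRel.Quotient X (PSub p X)) := Fintype.ofFinite _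
  have h1 := orbit_sum (Y := X) (P := PSub p X) (fun Q => if P Q then zz (brq Q.1 a) else 0)
    (fun x Q => by
      simp only [hP]
      rw [zz_brq_conj x Q ha])
  unfold wtP
  rw [finsum_eq_sum_of_fintype, h1]
  refine Finset.sum_congr rfl fun Q _ => ?_
  have h2 : MulAction.stabilizer X Q = Nm Q.1 := by
    ext x
    exact mem_stab
  rw [h2, mul_ite, mul_zero]

end conj

section main

variable {k : Type} [Field k] (p : ℕ) [Fact p.Prime] [CharP k p] {X : Type} [Group X] [Finite X]
  {T : Subgroup X} {e : MonoidAlgebra k T} (hc : ∀ y, e * y = y * e) (he : e * e = e)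
  (ho : Orth e)

include hc he ho in
theorem wtP_tr {P : PSub p X → Prop} (hP : ∀ (x : X) (Q : PSub p X), P (x • Q) ↔ P Q)
    {P' : PSub p T → Prop} (hP' : ∀ (x : T) (Q : PSub p T), P' (x • Q) ↔ P' Q)
    (h : ∀ (q : X ⧸ T) (R : PSub p T), P ⟨R.1.map (jq q), R.2.map _⟩ ↔ P' R) :
    wtP p P (tr e) = wtP p P' e := by
  have : Fintype (PSub p X) := Fintype.ofFinite _
  have : Fintype (PSub p T) := Fintype.ofFinite _
  have : ∀ Q : PSub p X, Fintype (Fx T Q.1) := fun Q => Fintype.ofFinite _
  have h1 := card_mul_wtP p hP (cj_tr (X := X) hc)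
  have h2 := card_mul_wtP p hP' (cj_of_central hc)
  have h3 : Nat.card X * wtP p P (tr e) = Nat.card X * wtP p P' e := by
    have h4 : ∑ Q : PSub p X, ∑ q : Fx T Q.1, (if P Q then Nat.card (Nm (Q.1.comap (jq q.1))) *
        zz (brq (Q.1.comap (jq q.1)) e) else 0) = ∑ _q : X ⧸ T, ∑ R : PSub p T,
          if P' R then Nat.card (Nm R.1) * zz (brq R.1 e) else 0 := by
      rw [← Fintype.sum_sigma', ← Fintype.sum_prod_type']
      refine Fintype.sum_equiv (pairEquiv p) _ _ fun a => ?_
      obtain ⟨b, rfl⟩ := (pairEquiv p).symm.surjective a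
      rw [Equiv.apply_symm_apply]
      have h5 : P ((pairEquiv p).symm b).1 ↔ P' b.2 := h b.1 b.2
      have h6 : ((pairEquiv p).symm b).1.1.comap (jq ((pairEquiv p).symm b).2.1) = b.2.1 :=
        Subgroup.comap_map_eq_self_of_injective (jq_inj b.1) b.2.1
      have h7 := congrArg (fun R => Nat.card (Nm R) * zz (brq R e)) h6
      rw [h7]
      simp only [h5]
    have h5 : ∀ Q : PSub p X, (if P Q then Nat.card (Nm Q.1) * zz (brq Q.1 (tr e)) else 0) =
        ∑ q : Fx T Q.1, (if P Q then Nat.card (Nm (Q.1.comap (jq q.1))) *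
        zz (brq (Q.1.comap (jq q.1)) e) else 0) := by
      intro Q
      by_cases hQ : P Q
      · simp only [if_pos hQ]
        exact card_mul_zz_tr p hc he ho Q
      · simp only [if_neg hQ]
        exact Finset.sum_const_zero.symm
    rw [h1, Finset.sum_congr rfl fun Q _ => h5 Q, h4, ← h2,
      Finset.sum_const, Finset.card_univ, smul_eq_mul, ← Nat.card_eq_fintype_card, ← mul_assoc,
      ← Subgroup.card_eq_card_quotient_mul_card_subgroup]
  exact Nat.eq_of_mul_eq_mul_left Nat.card_pos h3

end main

section brq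

variable {T S G : Type} [Group T] [Finite T] [Group S] [Finite S] [Group G] [Finite G]
  {p : ℕ} [hp : Fact p.Prime] {κ : T →* S × G} (hκ : Function.Surjective κ)
  (hS : ¬ p ∣ Nat.card S) (hK : ¬ p ∣ Nat.card κ.ker)
variable {k : Type} [Field k] [CharP k p] {m : Type} [Fintype m] [Nonempty m]
  (M : MatBlock k S m)

include hκ hK hS in
theorem wtP_lft {u : k} (hu : u * (Nat.card κ.ker : k) = 1) (σ : G →* T)
    (hσ : ∀ g, κ (σ g) = (1, g)) {z : MonoidAlgebra k G} (hz : ∀ g, cj g z = z)
    {P : PSub p T → Prop} {P' : PSub p G → Prop}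
    (hP' : ∀ (x : G) (Q : PSub p G), P' (x • Q) ↔ P' Q) (h : ∀ R, P R ↔ P' (img κ R)) :
    wtP p P (lft u κ M.ε z) = wtP p P' z := by
  let F : MulAction.orbitRel.Quotient T (PSub p T) → MulAction.orbitRel.Quotient G (PSub p G) :=
    Quotient.map (img κ) (by
      rintro R R' ⟨t, ht⟩
      refine ⟨(κ t).2, ?_⟩
      change (κ t).2 • img κ R' = img κ R
      rw [← img_smul]
      exact congrArg _ ht)
  have hF : Function.Bijective F := by
    constructor
    · intro c c'
      refine Quotient.inductionOn₂ c c' fun R R' h => ?_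
      obtain ⟨g, hg⟩ := Quotient.exact h
      obtain ⟨t, ht⟩ := hκ (1, g)
      have h1 : img κ (t • R') = img κ R := by
        rw [img_smul, ht]
        exact hg
      obtain ⟨c, -, hc⟩ := exists_conj hS hK h1
      refine Quotient.sound ⟨c * t, ?_⟩
      change (c * t) • R' = R
      rw [mul_smul, hc]
    · intro c
      refine Quotient.inductionOn c fun D => ?_
      refine ⟨Quotient.mk _ ⟨D.1.map σ, D.2.map _⟩, ?_⟩
      change Quotient.mk _ (img κ _) = _
      congr 1
      apply Subtype.ext
      change (D.1.map σ).map _ = D.1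
      rw [Subgroup.map_map]
      have h1 : ((MonoidHom.snd S G).comp κ).comp σ = MonoidHom.id G := by
        ext g
        change (κ (σ g)).2 = g
        rw [hσ]
      rw [h1, Subgroup.map_id]
  unfold wtP
  refine finsum_eq_of_bijective F hF fun c => ?_
  rw [zz_brq_lft hκ hS hK M _ hu]
  have h1 : (Quotient.mk _ (img κ (Quotient.out c)) :
      MulAction.orbitRel.Quotient G (PSub p G)) = F c := by
    conv_rhs => rw [← Quotient.out_eq c]
    rfl
  rw [← Quotient.out_eq (F c)] at h1
  obtain ⟨g, hg⟩ := Quotient.exact h1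
  have h2 : g • Quotient.out (F c) = img κ (Quotient.out c) := hg
  simp only [h]
  rw [← h2, zz_brq_conj g _ hz]
  simp only [hP']

end brq

end Pool.Agent.Helper18.NV
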