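import Pool.Agent.Helper18.NV.Dz2
import Pool.Agent.Helper18.NV.Wtp
import Pool.Graph.R_seed8.Y63.NV.Final

/-!
# The numbers of weights in the library's language
-/

set_option autoImplicit false
set_option linter.unusedSectionVars false
set_option maxHeartbeats 1000000

open scoped Classical
open MonoidAlgebra

noncomputable section

namespace Pool.Agent.Helper18.NV

open Pool.Agent.Helper18.BR Pool.Agent.Helper18.AW
open Pool.Agent.Y63.AWC (IsIrreducibleCharacter pSubgroupSetoid)
open Pool.Agent.Y63.NV (redC centralValue IsWt Nw cut IsClassFun InZ numDz)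

theorem setoid_eq (p : ℕ) (X : Type) [Group X] :
    pSubgroupSetoid p X = MulAction.orbitRel X (PSub p X) := by
  ext Q R
  constructor
  · rintro ⟨g, hg⟩
    refine ⟨g⁻¹, ?_⟩
    change g⁻¹ • R = Q
    have h1 : g • Q = R := Subtype.ext hg.symm
    rw [← h1, inv_smul_smul]
  · rintro ⟨g, hg⟩
    refine ⟨g⁻¹, ?_⟩
    have h1 : g • R = Q := hg
    have h2 : g⁻¹ • Q = R := by rw [← h1, inv_smul_smul]
    exact (congrArg Subtype.val h2).symm

theorem finsum_setoid {Ω : Type} {s s' : Setoid Ω} (h : s = s') (f : Ω → ℕ) :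
    ∑ᶠ c : Quotient s, f c.out = ∑ᶠ c : Quotient s', f c.out := by
  subst h
  rfl

/-- the sums over the fibres -/
def fibf {F J K : Type} [Field F] [Group J] [Group K] (π : J →* K) (f : J → F) : K → F :=
  fun y => ∑ᶠ x : J, if π x = y then f x else 0

theorem push_mk {F J K : Type} [Field F] [Group J] [Finite J] [Group K] [Finite K] (π : J →* K)
    (f : J → F) : push π (mk f) = mk (fibf π f) := by
  have : Fintype J := Fintype.ofFinite _
  ext y
  rw [push_coeff, mk_coeff]
  unfold fibf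
  rw [finsum_eq_sum_of_fintype, finsum_eq_sum_of_fintype, ← Finset.sum_filter]
  refine (Finset.sum_subtype _ (fun x => ?_) (fun x => f x)).symm
  rw [Finset.mem_filter]
  exact ⟨fun h => h.2, fun h => ⟨Finset.mem_univ _, h⟩⟩

section loc

variable {F : Type} [Field F] [IsAlgClosed F] {p : ℕ} [Fact p.Prime] [CharP F p]
  (red : integralClosure ℤ ℂ →+* F) {Γ : Type} [Group Γ] [Finite Γ]

/-- the number of weights on which a central element acts as `1` -/
theorem nw_eq_zz (Q : Subgroup Γ) (hQ : IsPGroup p Q) {z : Γ → F}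
    (hz : ∀ g x : Γ, z (g * x * g⁻¹) = z x) :
    Nw p red (Q.subgroupOf (Nm Q)) (fun x => z x) 1 = zz (brq Q (mk z)) := by
  have : Fintype (YQ Q) := Fintype.ofFinite _
  have : Fintype (Nm Q) := Fintype.ofFinite _
  have hcf : IsClassFun (fun x : Nm Q => z x) := fun g x => hz g x
  have hP : IsPGroup p (Q.subgroupOf (Nm Q)) := hQ.comap_subtype
  set f : Nm Q → F := cut (fun x : Nm Q => z x)
    (Subgroup.centralizer ((Q.subgroupOf (Nm Q) : Subgroup (Nm Q)) : Set (Nm Q))) with hf
  have hmem : ∀ n : Nm Q, n ∈ Subgroup.centralizer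
      ((Q.subgroupOf (Nm Q) : Subgroup (Nm Q)) : Set (Nm Q)) ↔
      (n : Γ) ∈ Subgroup.centralizer (Q : Set Γ) := by
    intro n
    rw [Subgroup.mem_centralizer_iff, Subgroup.mem_centralizer_iff]
    constructor
    · intro h y hy
      exact congrArg Subtype.val (h ⟨y, Subgroup.le_normalizer hy⟩ hy)
    · intro h y hy
      exact Subtype.ext (h y hy)
  have hbc : bc Q (mk z) = mk f := by
    ext n
    rw [bc_coeff, mk_coeff, mk_coeff, hf]
    unfold cut
    simp only [hmem]
  have hfc : IsClassFun f := by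
    have h1 : ∀ n : Nm Q, cj n (bc Q (mk z)) = bc Q (mk z) := by
      intro n
      rw [cj_bc]
      congr 1
      ext y
      rw [cj_coeff, mk_coeff, mk_coeff]
      have := hz (n : Γ)⁻¹ y
      rwa [inv_inv] at this
    have h2 := cf_of_central h1
    rw [hbc] at h2
    exact h2
  have h1 : Nw p red (Q.subgroupOf (Nm Q)) (fun x => z x) 1 =
      Nw p red (Q.subgroupOf (Nm Q)) f 1 := by
    unfold Nw
    refine Nat.card_congr (Equiv.subtypeEquivRight fun χ => and_congr_right fun hχ => ?_)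
    rw [hf, Pool.Agent.Y63.NV.cutw' p F red (Nm Q) (Q.subgroupOf (Nm Q)) (fun x => z x) χ
      inferInstance hP hcf hχ]
  have h2 : Q.subgroupOf (Nm Q) = (⊥ : Subgroup (YQ Q)).comap (pr Q) := by
    rw [MonoidHom.comap_bot, QuotientGroup.ker_mk']
  have h3 := Pool.Agent.Y210.NV3.nw_comap (pr Q) (QuotientGroup.mk'_surjective _)
    Pool.Agent.Y930.NV.inf p red (⊥ : Subgroup (YQ Q)) f hfc 1
  rw [← h2] at h3
  rw [h1, h3]
  have h4 : brq Q (mk z) = mk (fibf (pr Q) f) := by
    rw [brq_eq, hbc, push_mk]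
  have hgc : Pool.Agent.Y930.NV.Cf (fibf (pr Q) f) := by
    have h5 : ∀ y : YQ Q, cj y (brq Q (mk z)) = brq Q (mk z) := by
      intro y
      obtain ⟨n, rfl⟩ := QuotientGroup.mk'_surjective _ y
      rw [brq_eq]
      change cj (pr Q n) _ = _
      rw [← push_cj, cj_bc]
      congr 2
      ext y
      rw [cj_coeff, mk_coeff, mk_coeff]
      have := hz (n : Γ)⁻¹ y
      rwa [inv_inv] at this
    have h6 := cf_of_central h5
    rw [h4] at h6
    exact h6
  rw [h4, ← card_dz red hgc]
  unfold Nw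
  change Nat.card {χ : YQ Q → ℂ // IsWt p (⊥ : Subgroup (YQ Q)) χ ∧
    centralValue red χ (fibf (pr Q) f) = 1} = _
  exact Nat.card_congr (Equiv.subtypeEquivRight fun χ => and_congr_left fun _ =>
    isWt_bot (F := F))

/-- `z` separates `B` from the other blocks, on the central elements supported on `G` -/
def Sepr (G : Subgroup Γ) (B : (G → F) → F) (z : Γ → F) : Prop :=
  ∀ C : (Γ → F) → F, Pool.Agent.Y63.NV.IsBlock C →
    (C z = 1 ↔ ∀ y, InZ G y → C y = B (fun x : G => y x))

theorem numDz_eq {G : Subgroup Γ} {B : (G → F) → F} {z : Γ → F} (hz : InZ G z)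
    (hs : Sepr G B z) (Q : Subgroup Γ) (hQ : IsPGroup p Q) :
    numDz p red G Q B = zz (brq Q (mk z)) := by
  rw [← nw_eq_zz red Q hQ hz.conj]
  unfold numDz Nw
  refine Nat.card_congr (Equiv.subtypeEquivRight fun χ => and_congr_right fun hχ => ?_)
  exact (hs _ (Pool.Agent.Y63.NV.wblk' p F red Γ Q χ hQ hχ)).symm

/-- the right-hand side of Navarro's equality -/
theorem rhs_eq {G : Subgroup Γ} {B : (G → F) → F} {z : Γ → F} (hz : InZ G z)
    (hs : Sepr G B z) :
    (∑ᶠ c : Quotient (pSubgroupSetoid p Γ),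
      if G ⊔ c.out.1 = ⊤ then numDz p red G c.out.1 B else 0) =
    wtP p (fun Q => G ⊔ Q.1 = ⊤) (mk z) := by
  rw [finsum_setoid (setoid_eq p Γ)
    (fun Q => if G ⊔ Q.1 = ⊤ then numDz p red G Q.1 B else 0)]
  unfold wtP
  refine finsum_congr fun c => ?_
  rw [numDz_eq red hz hs _ c.out.2]

end loc

end Pool.Agent.Helper18.NV
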