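import Pool.Agent.Helper18.NV.Pair2
import Pool.Agent.Helper18.BR.Emb
import Pool.Graph.R_seed8.Y63.NV.PeL

/-!
# Navarro's equality and regular wreath products
-/

set_option autoImplicit false
set_option linter.unusedSectionVars false
set_option maxHeartbeats 1000000

open scoped Classical
open MonoidAlgebra

noncomputable section

namespace Pool.Agent.Helper18.NV

open Pool.Agent.Helper18.BR Pool.Agent.Helper18.AW
open Pool.Agent.Y63.NV (Navarro NavarroTheta theta_iff Closed Reduced)

/-- the subgroup `C_r^K ⋊ N` of the regular wreath product `C_r ≀ K` -/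
def ov (r : ℕ) {K : Type} [Group K] (N : Subgroup K) :
    Subgroup (Wr (Multiplicative (ZMod r)) K K) := N.comap SemidirectProduct.rightHom

/-- Navarro's equality for `G = Γ = C_r ≀ A_n`: the blockwise Alperin weight conjecture for
`C_r ≀ A_n` -/
def AltCase (p : ℕ) {F : Type} [Field F] (red : integralClosure ℤ ℂ →+* F) (r n : ℕ) : Prop :=
  NavarroTheta p red (⊤ : Subgroup (Wr (Multiplicative (ZMod r)) (alternatingGroup (Fin n))
    (alternatingGroup (Fin n))))

section main

variable (p : ℕ) [hp : Fact p.Prime] (F : Type) [Field F] [IsAlgClosed F] [CharP F p]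
  (red : integralClosure ℤ ℂ →+* F) (S : Type) [CommGroup S] [Finite S] [Nontrivial S]
  (hS : ¬ p ∣ Nat.card S)

include hS in
theorem navarro_wr {K Γ : Type} [Group K] [Finite K] [Group Γ] [Finite Γ] {i : Γ →* K}
    (hi : Function.Injective i) (N : Subgroup K) [hN : N.Normal]
    (hT : ∀ k : K, ∃ g : Γ, k * (i g)⁻¹ ∈ N)
    (h : Navarro p red (N.comap (SemidirectProduct.rightHom : Wr S K K →* K))) :
    Navarro p red (N.comap i) := by
  have h0 : (Nat.card S : F) ≠ 0 := fun h => hS ((CharP.cast_eq_zero_iff F p _).1 h)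
  obtain ⟨m, i1, i2, ⟨M⟩⟩ := (good_of_nontrivial h0).exists_matBlock (isUnit_iff_ne_zero.2 h0)
  obtain ⟨w, hw⟩ := (isUnit_iff_ne_zero.2 h0).exists_left_inv
  have hd := rk_ker_dvd (S := S) hi (regular_stab (i := i))
  obtain ⟨u, hu⟩ := unit_of_dvd hd hw
  refine navarro_transfer (X₀ := N.comap (SemidirectProduct.rightHom : Wr S K K →* K))
    (T := RT S K i) (κ := rk hi regular_stab) (G := N.comap i) (fun t => ?_) (fun x => ?_) M
    (rk_surj hi regular_stab range_nonempty) hu (sep_rk hi regular_stab) hS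
    (not_dvd_ker hd hS) (rs S K i) (rk_rs hi regular_stab) red h
  · rw [Subgroup.mem_comap, Subgroup.mem_comap]
    have h1 : i (rk hi regular_stab t).2 = t.1.right := i_rG hi t
    rw [h1]
    rfl
  · obtain ⟨g, hg⟩ := hT x.right
    refine ⟨rs S K i g, ?_⟩
    rw [Subgroup.mem_comap]
    exact hg

include hS in
/-- supplements -/
theorem part_a {K : Type} [Group K] [Finite K] (N : Subgroup K) [hN : N.Normal]
    (h : NavarroTheta p red (N.comap (SemidirectProduct.rightHom : Wr S K K →* K)))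
    (Γ : Subgroup K) (hT : N ⊔ Γ = ⊤) : NavarroTheta p red (N.subgroupOf Γ) := by
  rw [theta_iff] at h ⊢
  refine navarro_wr p F red S hS (i := Γ.subtype) (Subgroup.subtype_injective _) N (fun k => ?_) h
  obtain ⟨g, hg, h1⟩ := sup_top_iff.1 hT k
  exact ⟨⟨g, hg⟩, h1⟩

include hS in
/-- a fixed quotient -/
theorem part_b (P : Type) [Group P] [Finite P] {n : ℕ}
    (h : NavarroTheta p red ((MonoidHom.snd (alternatingGroup (Fin n)) P).comp
      (SemidirectProduct.rightHom : Wr S (alternatingGroup (Fin n) × P)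
        (alternatingGroup (Fin n) × P) →* alternatingGroup (Fin n) × P)).ker)
    (Γ : Type) [Group Γ] [Finite Γ] (hn : 2 * Nat.card Γ ≤ n) (G : Subgroup Γ) [G.Normal]
    (e : Γ ⧸ G ≃* P) : NavarroTheta p red G := by
  obtain ⟨j, hj⟩ := exists_alt Γ n hn
  let π : Γ →* P := e.toMonoidHom.comp (QuotientGroup.mk' G)
  have hπ : Function.Surjective π := e.surjective.comp (QuotientGroup.mk'_surjective G)
  have hk : π.ker = G := by
    ext x
    rw [MonoidHom.mem_ker]
    change e (QuotientGroup.mk' G x) = 1 ↔ _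
    rw [map_eq_one_iff e e.injective, QuotientGroup.mk'_apply, QuotientGroup.eq_one_iff]
  rw [theta_iff] at h ⊢
  have h1 := navarro_wr p F red S hS (K := alternatingGroup (Fin n) × P) (i := j.prod π)
    (fun x y hxy => hj (congrArg Prod.fst hxy)) (MonoidHom.snd (alternatingGroup (Fin n)) P).ker
    (fun k => ?_) ?_
  · have h2 : (MonoidHom.snd (alternatingGroup (Fin n)) P).ker.comap (j.prod π) = G := by
      rw [← hk]
      ext x
      rw [Subgroup.mem_comap, MonoidHom.mem_ker, MonoidHom.mem_ker]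
      rfl
    rwa [h2] at h1
  · obtain ⟨g, hg⟩ := hπ k.2
    refine ⟨g, ?_⟩
    rw [MonoidHom.mem_ker]
    change k.2 * (π g)⁻¹ = 1
    rw [hg, mul_inv_cancel]
  · rwa [MonoidHom.comap_ker]

include hS in
/-- the whole group -/
theorem part_c {n : ℕ} (h : NavarroTheta p red (⊤ : Subgroup (Wr S (alternatingGroup (Fin n))
      (alternatingGroup (Fin n)))))
    (Γ : Type) [Group Γ] [Finite Γ] (N G : Subgroup Γ) [N.Normal] [G.Normal] (hNG : N ≤ G)
    (hp : IsPGroup p (Γ ⧸ N)) (hn : 2 * Nat.card N ≤ n) : NavarroTheta p red G := by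
  refine (Pool.Agent.Y63.NV.block_strong red (fun H _ => Finite H ∧ 2 * Nat.card H ≤ n)
    ⟨?_, ?_, ?_⟩).1 ?_ Γ N G hNG ⟨inferInstance, hn⟩ hp
  · rintro A B _ _ ⟨h1, h2⟩ ⟨e⟩
    exact ⟨Finite.of_equiv A e.toEquiv, by rwa [← Nat.card_congr e.toEquiv]⟩
  · rintro A _ ⟨h1, h2⟩ H
    exact ⟨inferInstance, (Nat.mul_le_mul_left 2 (Subgroup.card_le_card_group H)).trans h2⟩
  · rintro A _ ⟨h1, h2⟩ M _ _
    exact ⟨inferInstance, (Nat.mul_le_mul_left 2
      (Nat.card_le_card_of_surjective _ (QuotientGroup.mk'_surjective M))).trans h2⟩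
  · rintro H _ _ ⟨-, h2⟩ -
    obtain ⟨j, hj⟩ := exists_alt H n h2
    rw [theta_iff] at h ⊢
    have h1 := navarro_wr p F red S hS (K := alternatingGroup (Fin n)) hj ⊤
      (fun k => ⟨1, Subgroup.mem_top _⟩) (by rwa [Subgroup.comap_top])
    rwa [Subgroup.comap_top] at h1

end main

end Pool.Agent.Helper18.NV
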