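import Pool.Agent.Helper18.NV.Sepr
import Pool.Agent.Helper18.AW.Abs

/-!
# Reduction data for linear characters of abelian groups
-/

set_option autoImplicit false
set_option linter.unusedSectionVars false
set_option maxHeartbeats 1000000

open scoped Classical
open MonoidAlgebra

noncomputable section

namespace Pool.Agent.Helper18.NV

open Pool.Agent.Helper18.BR Pool.Agent.Helper18.AW

section sub

variable {F : Type} [Field F] {S : Type} [CommGroup S] [Finite S] {m : Type} [Fintype m]
  [Nonempty m]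

theorem ma_comm (a b : MonoidAlgebra F S) : a * b = b * a := by
  refine central_of_cj (fun x => ?_) b
  ext y
  rw [cj_coeff]
  congr 1
  rw [mul_right_comm, inv_mul_cancel, one_mul]

theorem subsing (M : MatBlock F S m) : Subsingleton m := by
  refine ⟨fun i j => ?_⟩
  by_contra hij
  obtain ⟨a, ha⟩ := M.surj (Matrix.single i j 1)
  obtain ⟨b, hb⟩ := M.surj (Matrix.single j i 1)
  have h1 : M.τ (a * b) = M.τ (b * a) := by rw [ma_comm]
  rw [map_mul, map_mul, ha, hb, Matrix.single_mul_single_same, Matrix.single_mul_single_same] at h1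
  have h2 := congrFun (congrFun h1 i) i
  rw [Matrix.single_apply_same, Matrix.single_apply_of_ne] at h2
  · simp at h2
  · rintro ⟨h, -⟩
    exact hij h.symm

end sub

section mkd

variable {F : Type} [Field F] {X S Γ : Type} [Group X] [Finite X] [CommGroup S] [Finite S]
  [Group Γ] [Finite Γ] {T : Subgroup X} {κ : T →* S × Γ} {m : Type} [Fintype m] [Nonempty m]
  (M : MatBlock F S m)

/-- the point of `m` -/
def pt (m : Type) [Nonempty m] : m := Classical.choice inferInstance

/-- the algebra homomorphism -/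
def psi1 (κ : T →* S × Γ) : MonoidAlgebra F T →ₐ[F] MonoidAlgebra F Γ where
  toFun y := psi M.τ (push κ y) (pt m) (pt m)
  map_one' := by rw [map_one, map_one, Matrix.one_apply_eq]
  map_mul' x y := by
    have := subsing M
    rw [map_mul, map_mul, Matrix.mul_apply, Fintype.sum_subsingleton _ (pt m)]
  map_zero' := by rw [map_zero, map_zero, Matrix.zero_apply]
  map_add' x y := by rw [map_add, map_add, Matrix.add_apply]
  commutes' r := by
    rw [AlgHom.commutes, AlgHom.commutes, Matrix.algebraMap_matrix_apply, if_pos rfl]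

theorem psi1_apply (y : MonoidAlgebra F T) :
    psi1 M κ y = psi M.τ (push κ y) (pt m) (pt m) := rfl

/-- the linear character -/
def lam (s : S) : F := M.τ (single s 1) (pt m) (pt m)

theorem psi1_single (t : T) : psi1 M κ (single t 1) = single (κ t).2 (lam M (κ t).1) := by
  ext g
  rw [psi1_apply, psi_coeff, push_single]
  have h : κ t = ((κ t).1, (κ t).2) := rfl
  rw [h, slice_single, coeff_single, Finsupp.single_apply]
  split_ifs
  · rfl
  · rw [map_zero, Matrix.zero_apply]

variable {u : F} (hκ : Function.Surjective κ) (hu : u * (Nat.card κ.ker : F) = 1) (hs : Sep κ)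

/-- the reduction data -/
def mkD : Dat F Γ T where
  ψ := psi1 M κ
  e := lft u κ M.ε 1
  ℓ := lft u κ M.ε
  ker x := by
    have := subsing M
    have h1 : psi1 M κ x = 0 ↔ psi M.τ (push κ x) = 0 := by
      rw [psi1_apply]
      constructor
      · intro h
        ext i j : 2
        rw [Subsingleton.elim i (pt m), Subsingleton.elim j (pt m), h, Matrix.zero_apply]
      · intro h
        rw [h, Matrix.zero_apply]
    rw [h1, psi_ker M.ker]
    unfold lft
    rw [infl_mul]
    constructor
    · intro h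
      rw [h, infl_zero]
    · intro h
      exact infl_inj hκ hu (by rw [h, infl_zero])
  central x := by
    unfold lft
    rw [infl_mul, mul_infl, ten_one_central M.central]
  idem := by
    unfold lft
    rw [infl_mul, push_infl hκ hu, ten_one_mul M.idem]
  orth := lft_orth M hs 1
  sec z := by
    rw [psi1_apply]
    unfold lft
    rw [push_infl hκ hu, psi_ten (IsAlg.one M.idem M.ker), Matrix.scalar_apply,
      Matrix.diagonal_apply_eq]
  sec' z := by
    unfold lft
    rw [infl_mul, push_infl hκ hu, ten_one_mul M.idem]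

end mkd

section pair

variable {F : Type} [Field F] {X S Γ : Type} [Group X] [Finite X] [CommGroup S] [Finite S]
  [Group Γ] [Finite Γ] {T : Subgroup X} {κ : T →* S × Γ} {X₀ : Subgroup X} {G : Subgroup Γ}
  (hG : ∀ t : T, (t : X) ∈ X₀ ↔ (κ t).2 ∈ G)

/-- the restriction of `κ` -/
def k0 : T.subgroupOf X₀ →* S × G where
  toFun t := ((κ ⟨t.1.1, t.2⟩).1, ⟨(κ ⟨t.1.1, t.2⟩).2, (hG _).1 t.1.2⟩)
  map_one' := by
    have h0 := map_one κ
    have h1 := congrArg Prod.fst h0
    have h2 := congrArg Prod.snd h0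
    refine Prod.ext ?_ (Subtype.ext ?_)
    · exact h1
    · exact h2
  map_mul' t t' := by
    have h0 := map_mul κ ⟨t.1.1, t.2⟩ ⟨t'.1.1, t'.2⟩
    have h1 := congrArg Prod.fst h0
    have h2 := congrArg Prod.snd h0
    refine Prod.ext ?_ (Subtype.ext ?_)
    · exact h1
    · exact h2

theorem k0_eq {t : T.subgroupOf X₀} {s : S} {g : G} (h0 : κ ⟨t.1.1, t.2⟩ = (s, g.1)) :
    k0 hG t = (s, g) := by
  have h1 := congrArg Prod.fst h0
  have h2 := congrArg Prod.snd h0
  refine Prod.ext ?_ (Subtype.ext ?_)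
  · exact h1
  · exact h2

theorem k0_one {t : T.subgroupOf X₀} : k0 hG t = 1 ↔ κ ⟨t.1.1, t.2⟩ = 1 := by
  constructor
  · intro h2
    have h3 := congrArg Prod.fst h2
    have h4 := congrArg (fun x : S × G => (x.2 : Γ)) h2
    refine Prod.ext ?_ ?_
    · exact h3
    · exact h4
  · intro h2
    exact k0_eq hG h2

theorem k0_surj (hκ : Function.Surjective κ) : Function.Surjective (k0 hG) := by
  rintro ⟨s, g⟩
  obtain ⟨t, ht⟩ := hκ (s, g.1)
  have h1 : (t : X) ∈ X₀ := by
    rw [hG, ht]
    exact g.2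
  exact ⟨⟨⟨t.1, h1⟩, t.2⟩, k0_eq hG ht⟩

theorem card_k0 : Nat.card (k0 hG).ker = Nat.card κ.ker := by
  symm
  refine Nat.card_congr
    { toFun := fun t => ⟨⟨⟨t.1.1, (hG _).2 (by
          have h1 := MonoidHom.mem_ker.1 t.2
          rw [h1]
          exact G.one_mem)⟩, t.1.2⟩, (k0_one hG).2 t.2⟩
      invFun := fun t => ⟨⟨t.1.1.1, t.1.2⟩, (k0_one hG).1 t.2⟩
      left_inv := fun t => rfl
      right_inv := fun t => rfl }

theorem sep_k0 (hs : Sep κ) : Sep (k0 hG) := by
  intro x hx
  obtain ⟨j, t, hj, ht⟩ := hs x.1 hx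
  have hj' : ∀ s, (j s : X) ∈ X₀ := fun s => by
    rw [hG, hj]
    exact G.one_mem
  have ht' : ∀ s, (t s : X) ∈ X₀ := fun s => by
    rw [hG, (ht s).1]
    exact G.one_mem
  refine ⟨fun s => ⟨⟨(j s).1, hj' s⟩, (j s).2⟩, fun s => ⟨⟨(t s).1, ht' s⟩, (t s).2⟩,
    fun s => k0_eq hG (hj s), fun s => ⟨(k0_one hG).2 (ht s).1, Subtype.ext (ht s).2⟩⟩

variable {m : Type} [Fintype m] [Nonempty m] (M : MatBlock F S m)

/-- compatibility -/
theorem psi1_compat (f : MonoidAlgebra F X₀) :
    psi1 M κ (res T (inc X₀ f)) = inc G (psi1 M (k0 hG) (res (T.subgroupOf X₀) f)) := by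
  induction f using MonoidAlgebra.induction_linear with
  | zero => rw [map_zero, res_zero, res_zero, map_zero, map_zero, map_zero]
  | add a b ha hb => rw [map_add, res_add, res_add, map_add, map_add, map_add, ha, hb]
  | single x r =>
    have h1 : (single x r : MonoidAlgebra F X₀) = r • single x 1 := by
      rw [smul_single, smul_eq_mul, mul_one]
    rw [h1, map_smul, res_smul, res_smul, map_smul, map_smul, map_smul, inc_single]
    congr 1
    by_cases hx : (x : X) ∈ T
    · have hx' : x ∈ T.subgroupOf X₀ := hx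
      rw [res_single_mem T hx, res_single_mem _ hx', psi1_single, psi1_single, inc_single]
      rfl
    · have hx' : x ∉ T.subgroupOf X₀ := hx
      rw [res_single_not T hx, res_single_not _ hx', map_zero, map_zero, map_zero]

section conj

variable [X₀.Normal] [G.Normal]

/-- conjugation on the normal subgroup -/
abbrev al (h : X) : X₀ →* X₀ := (MulAut.conjNormal h : X₀ ≃* X₀).toMonoidHom

theorem al_coe (h : X) (x : X₀) : ((al h x : X₀) : X) = h * x * h⁻¹ := MulAut.conjNormal_apply h x

theorem al_bij (h : X) : Function.Bijective (al (X₀ := X₀) h) :=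
  (MulAut.conjNormal h : X₀ ≃* X₀).bijective

theorem al_mem (t : T) (x : X₀) : al (t : X) x ∈ T.subgroupOf X₀ ↔ x ∈ T.subgroupOf X₀ := by
  rw [Subgroup.mem_subgroupOf, Subgroup.mem_subgroupOf, al_coe]
  constructor
  · intro h
    have := T.mul_mem (T.mul_mem (T.inv_mem t.2) h) t.2
    have h2 : (t : X)⁻¹ * (t * x * (t : X)⁻¹) * t = x := by group
    rwa [h2] at this
  · intro h
    exact T.mul_mem (T.mul_mem t.2 h) (T.inv_mem t.2)

theorem k0_al (t : T) (x : T.subgroupOf X₀) (hx : al (t : X) x.1 ∈ T.subgroupOf X₀) :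
    k0 hG ⟨al (t : X) x.1, hx⟩ = ((k0 hG x).1, al (κ t).2 (k0 hG x).2) := by
  apply k0_eq
  have h1 : (⟨(al (t : X) x.1 : X₀).1, hx⟩ : T) = t * ⟨x.1.1, x.2⟩ * t⁻¹ :=
    Subtype.ext (al_coe _ _)
  rw [h1, map_mul, map_mul, map_inv]
  refine Prod.ext ?_ ?_
  · change (κ t).1 * (κ ⟨x.1.1, x.2⟩).1 * (κ t).1⁻¹ = (κ ⟨x.1.1, x.2⟩).1
    rw [mul_inv_eq_iff_eq_mul, mul_comm]
  · change (κ t).2 * (κ ⟨x.1.1, x.2⟩).2 * (κ t).2⁻¹ = _
    exact (al_coe (κ t).2 (k0 hG x).2).symm

theorem psi1_al (t : T) (y : MonoidAlgebra F X₀) :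
    psi1 M (k0 hG) (res (T.subgroupOf X₀) (push (al (t : X)) y)) =
      push (al (κ t).2) (psi1 M (k0 hG) (res (T.subgroupOf X₀) y)) := by
  induction y using MonoidAlgebra.induction_linear with
  | zero => rw [map_zero, res_zero, map_zero, map_zero]
  | add a b ha hb => rw [map_add, res_add, res_add, map_add, map_add, map_add, ha, hb]
  | single x r =>
    have h1 : (single x r : MonoidAlgebra F X₀) = r • single x 1 := by
      rw [smul_single, smul_eq_mul, mul_one]
    rw [h1, map_smul, res_smul, res_smul, map_smul, map_smul, map_smul, push_single]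
    congr 1
    by_cases hx : x ∈ T.subgroupOf X₀
    · have hx' : al (t : X) x ∈ T.subgroupOf X₀ := (al_mem t x).2 hx
      rw [res_single_mem _ hx, res_single_mem _ hx', psi1_single, psi1_single, push_single,
        k0_al hG t ⟨x, hx⟩ hx']
    · have hx' : al (t : X) x ∉ T.subgroupOf X₀ := fun h => hx ((al_mem t x).1 h)
      rw [res_single_not _ hx, res_single_not _ hx', map_zero, map_zero]

theorem lft_al (t : T) (u : F) (z : MonoidAlgebra F G) :
    push (al (t : X)) (inc (T.subgroupOf X₀) (lft u (k0 hG) M.ε z)) =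
      inc (T.subgroupOf X₀) (lft u (k0 hG) M.ε (push (al (κ t).2) z)) := by
  ext y
  obtain ⟨x, rfl⟩ := (al_bij (X₀ := X₀) (t : X)).2 y
  rw [push_inj_coeff (al_bij (t : X)).1, inc_coeff, inc_coeff]
  by_cases hx : x ∈ T.subgroupOf X₀
  · have hx' : al (t : X) x ∈ T.subgroupOf X₀ := (al_mem t x).2 hx
    rw [dif_pos hx, dif_pos hx', lft_coeff, lft_coeff, k0_al hG t ⟨x, hx⟩ hx',
      push_inj_coeff (al_bij (κ t).2).1]
  · have hx' : al (t : X) x ∉ T.subgroupOf X₀ := fun h => hx ((al_mem t x).1 h)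
    rw [dif_neg hx, dif_neg hx']

end conj

end pair

end Pool.Agent.Helper18.NV
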