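import Pool.Agent.Helper18.NV.Mkd

/-!
# Pairs of a finite group and a normal subgroup
-/

set_option autoImplicit false
set_option linter.unusedSectionVars false
set_option maxHeartbeats 1000000

open scoped Classical
open MonoidAlgebra

noncomputable section

namespace Pool.Agent.Helper18.NV

open Pool.Agent.Helper18.BR Pool.Agent.Helper18.AW
open Pool.Agent.Y63.NV (conv IsClassFun InZ IsIrrTrace IsInvUnder IsInvBlock numIBr Navarro)

section blk

variable {F : Type} [Field F] {Y : Type} [Group Y] [Finite Y] {G : Type} [Group G] [Finite G]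
  {T : Subgroup Y} (D : Dat F G T)

theorem mk_add' (f g : Y → F) : (mk (f + g) : MonoidAlgebra F Y) = mk f + mk g := by
  ext x
  rfl

theorem mk_smul' (a : F) (f : Y → F) : (mk (a • f) : MonoidAlgebra F Y) = a • mk f := by
  ext x
  rfl

theorem mk_coe (a : MonoidAlgebra F Y) : mk (fun x => a.coeff x) = a := by
  ext x
  rfl

theorem mk_conv (f g : Y → F) : (mk (conv f g) : MonoidAlgebra F Y) = mk f * mk g := by
  have : Fintype Y := Fintype.ofFinite _
  ext x
  rw [mk_coeff, Pool.Agent.Y930.NV.cv_eq_conv, coeff_mul_sum]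
  rfl

theorem mk_one' : (mk (Pi.single 1 1) : MonoidAlgebra F Y) = 1 := by
  ext x
  rw [mk_coeff, one_def, coeff_single, Finsupp.single_apply, Pi.single_apply]
  simp only [eq_comm]

theorem mk_cent {f : Y → F} (hf : IsClassFun f) (y : MonoidAlgebra F Y) : mk f * y = y * mk f :=
  central_of_cj (cj_mk' hf) y

theorem class_mk {a : MonoidAlgebra F Y} (ha : ∀ y, a * y = y * a) :
    IsClassFun (fun x => a.coeff x) := class_of_cj (cj_of_central ha)

/-- the block of `Y` which belongs to the block `B` of `G` -/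
def bD (B : (G → F) → F) : (Y → F) → F := fun f => bv B (D.ψ (res T (mk f)))

theorem bv_bD (B : (G → F) → F) (a : MonoidAlgebra F Y) :
    bv (bD D B) a = bv B (D.ψ (res T a)) := by
  unfold bv bD
  rw [mk_coe]
  rfl

theorem psi_cj {f : MonoidAlgebra F Y} (hf : ∀ y, f * y = y * f) (x : G) :
    cj x (D.ψ (res T f)) = D.ψ (res T f) := cj_of_central (D.psi_central hf) x

theorem bD_block {B : (G → F) → F} (hB : Pool.Agent.Y63.NV.IsBlock B) :
    Pool.Agent.Y63.NV.IsBlock (bD D B) where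
  add f g hf hg := by
    unfold bD
    rw [mk_add', res_add, map_add]
    exact bv_add hB (psi_cj D (mk_cent hf)) (psi_cj D (mk_cent hg))
  smul a f hf := by
    unfold bD
    rw [mk_smul', res_smul, map_smul]
    exact bv_smul hB a (psi_cj D (mk_cent hf))
  one := by
    unfold bD
    have h1 : (1 : MonoidAlgebra F Y) = inc T 1 := (map_one _).symm
    rw [mk_one', h1, res_inc, map_one]
    exact bv_one hB
  mul f g hf hg := by
    unfold bD
    rw [mk_conv, D.psi_mul (mk_cent hf)]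
    exact bv_mul hB (psi_cj D (mk_cent hf)) (psi_cj D (mk_cent hg))

/-- the elements of the centre act on `φ` by `b` -/
def Lies (b : MonoidAlgebra F Y → F) (φ : Y → F) : Prop :=
  ∀ a : MonoidAlgebra F Y, (∀ y, a * y = y * a) → ∀ y, ev φ (a * y) = b a * ev φ y

theorem lies_iff (B : (Y → F) → F) (φ : Y → F) :
    (∀ f : Y → F, IsClassFun f → ∀ x : Y, ∑ᶠ g : Y, f g * φ (g * x) = B f * φ x) ↔
      Lies (bv B) φ := by
  constructor
  · intro h a ha y
    have h1 := (acts_iff (fun x => a.coeff x) _).1 (h _ (class_mk ha)) y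
    rwa [mk_coe] at h1
  · intro h f hf
    rw [acts_iff]
    exact h (mk f) (mk_cent hf)

theorem lies_tr {b : MonoidAlgebra F G → F} (h1 : b 1 = 1) {Φ : Y → F}
    (h : Lies (fun a => b (D.ψ (res T a))) Φ) (y : MonoidAlgebra F Y) :
    ev Φ (tr D.e * y) = ev Φ y := by
  rw [h _ (tr_central D.central)]
  dsimp only
  rw [D.psi_tr D.central D.idem, D.map_e, h1, one_mul]

theorem ev_push {Y' : Type} [Group Y'] [Finite Y'] (α : Y →* Y') (Φ : Y' → F)
    (y : MonoidAlgebra F Y) : ev (fun x => Φ (α x)) y = ev Φ (push α y) := by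
  refine ev_unique (l := (ev Φ).comp (push α).toLinearMap) (fun x => ?_) y
  change ev Φ (push α (single x 1)) = _
  rw [push_single, ev_one]

end blk

section auto

variable {F : Type} [Field F] {Y : Type} [Group Y] [Finite Y]

theorem push_class {α : Y →* Y} (hα : Function.Bijective α) {f f' : Y → F}
    (h : ∀ x, f' (α x) = f x) : (mk f' : MonoidAlgebra F Y) = push α (mk f) := by
  ext y
  obtain ⟨x, rfl⟩ := hα.2 y
  rw [push_inj_coeff hα.1, mk_coeff, mk_coeff, h]

end auto

section main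

variable {F : Type} [Field F] {X S Γ : Type} [Group X] [Finite X]
  [CommGroup S] [Finite S] [Group Γ] [Finite Γ] {T : Subgroup X} {κ : T →* S × Γ}
  {X₀ : Subgroup X} {G : Subgroup Γ} [X₀.Normal] [G.Normal]
  (hG : ∀ t : T, (t : X) ∈ X₀ ↔ (κ t).2 ∈ G)
  (hXT : ∀ x : X, ∃ t : T, x * (t : X)⁻¹ ∈ X₀)
  {m : Type} [Fintype m] [Nonempty m] (M : MatBlock F S m)
  {u : F} (hκ : Function.Surjective κ) (hu : u * (Nat.card κ.ker : F) = 1) (hs : Sep κ)

/-- the data of the normal subgroup -/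
abbrev D0 : Dat F G (T.subgroupOf X₀) :=
  mkD M (k0_surj hG hκ) (u := u) (by rw [card_k0]; exact hu) (sep_k0 hG hs)

/-- the data of the group -/
abbrev D1 : Dat F Γ T := mkD M hκ hu hs

theorem inv_iff {Φ : X₀ → F} : IsInvUnder ⊤ Φ ↔ ∀ (h : X) (x : X₀), Φ (al h x) = Φ x := by
  constructor
  · intro h g x
    exact h g trivial x (al g x) (al_coe g x)
  · intro h g _ x y hy
    have h1 : y = al g x := Subtype.ext (hy.trans (al_coe g x).symm)
    rw [h1, h]

include hXT in
theorem inv_iff' {Φ : X₀ → F} (hc : IsClassFun Φ) :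
    IsInvUnder ⊤ Φ ↔ ∀ (t : T) (x : X₀), Φ (al (t : X) x) = Φ x := by
  rw [inv_iff]
  constructor
  · intro h t x
    exact h t x
  · intro h g x
    obtain ⟨t, ht⟩ := hXT g
    rw [← h t x, ← hc ⟨_, ht⟩ (al (t : X) x)]
    congr 1
    apply Subtype.ext
    change (al g x : X₀).1 = g * (t : X)⁻¹ * (al (t : X) x : X₀).1 * (g * (t : X)⁻¹)⁻¹
    rw [al_coe, al_coe]
    group

/-- invariance of the values of the block under automorphisms -/
theorem bv_al {B : (G → F) → F} (hI : IsInvBlock G B) (g : Γ) {a : MonoidAlgebra F G}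
    (ha : ∀ y, a * y = y * a) : bv B (push (al g) a) = bv B a := by
  refine hI g _ _ (class_mk ha) fun x y hy => ?_
  have h1 : y = al g x := Subtype.ext (hy.trans (al_coe g x).symm)
  rw [h1, push_inj_coeff (al_bij g).1]

theorem push_central {Y : Type} [Group Y] [Finite Y] {α : Y →* Y} (hα : Function.Bijective α)
    {a : MonoidAlgebra F Y} (ha : ∀ y, a * y = y * a) (y : MonoidAlgebra F Y) :
    push α a * y = y * push α a := by
  refine central_of_cj (fun x => ?_) y
  obtain ⟨z, rfl⟩ := hα.2 x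
  rw [← push_cj, cj_of_central ha]

variable {B : (G → F) → F} (hB : Pool.Agent.Y63.NV.IsBlock B) (hI : IsInvBlock G B)

include hI in
theorem bv_D0 (t : T) {a : MonoidAlgebra F X₀} (ha : ∀ y, a * y = y * a) :
    bv B ((D0 hG M hκ hu hs).ψ (res _ (push (al (t : X)) a))) =
      bv B ((D0 hG M hκ hu hs).ψ (res _ a)) := by
  change bv B (psi1 M (k0 hG) (res (T.subgroupOf X₀) (push (al (t : X)) a))) = _
  rw [psi1_al]
  exact bv_al hI _ ((D0 hG M hκ hu hs).psi_central ha)

include hI hXT in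
theorem bD_inv : IsInvBlock X₀ (bD (D0 hG M hκ hu hs) B) := by
  intro g f f' hf hff
  obtain ⟨t, ht⟩ := hXT g
  have h0 : ∀ x, f' (al g x) = f x := fun x => hff x _ (al_coe g x)
  have h1 : (mk f' : MonoidAlgebra F X₀) = push (al (t : X)) (mk f) := by
    refine push_class (al_bij _) fun x => ?_
    have h2 : al (t : X) x =
        al g ((al g⁻¹ (⟨_, ht⟩ : X₀))⁻¹ * x * ((al g⁻¹ (⟨_, ht⟩ : X₀))⁻¹)⁻¹) := by
      apply Subtype.ext
      rw [al_coe, al_coe]
      change _ = g * (((al g⁻¹ (⟨_, ht⟩ : X₀) : X₀) : X)⁻¹ * x *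
        (((al g⁻¹ (⟨_, ht⟩ : X₀) : X₀) : X)⁻¹)⁻¹) * g⁻¹
      rw [al_coe]
      group
    rw [h2, h0]
    exact hf _ x
  unfold bD
  rw [h1]
  exact bv_D0 hG M hκ hu hs hI t (mk_cent hf)

/-- restriction and automorphisms -/
theorem rs_al (t : T) (Φ : X₀ → F) (g : G) :
    (D0 hG M hκ hu hs).rs (fun x => Φ (al (t : X) x)) g =
      (D0 hG M hκ hu hs).rs Φ (al (κ t).2 g) := by
  unfold Dat.rs
  rw [ev_push]
  change ev Φ (push (al (t : X)) (inc (T.subgroupOf X₀) (lft u (k0 hG) M.ε (single g 1)))) = _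
  rw [lft_al, push_single]
  rfl

include hB hI hXT in
/-- the numbers of irreducible traces -/
theorem numIBr_eq [IsAlgClosed F] : numIBr X₀ (bD (D0 hG M hκ hu hs) B) = numIBr G B := by
  set D := D0 (X₀ := X₀) hG M hκ hu hs with hD
  unfold numIBr
  have hb : ∀ a : MonoidAlgebra F X₀, bv (bD D B) a = bv B (D.ψ (res _ a)) := bv_bD D B
  have hb' : (bv (bD D B) : MonoidAlgebra F X₀ → F) = fun a => bv B (D.ψ (res _ a)) := funext hb
  have htr : ∀ {Φ : X₀ → F}, Lies (fun a => bv B (D.ψ (res _ a))) Φ →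
      ∀ y, ev Φ (tr D.e * y) = ev Φ y := fun h => lies_tr D (bv_one hB) h
  have hrs : ∀ (t : T) (Φ : X₀ → F) (g : G),
      D.rs (fun x => Φ (al (t : X) x)) g = D.rs Φ (al (κ t).2 g) := rs_al hG M hκ hu hs
  have hal : ∀ (t : T) {Φ : X₀ → F}, Lies (fun a => bv B (D.ψ (res _ a))) Φ →
      Lies (fun a => bv B (D.ψ (res _ a))) (fun x => Φ (al (t : X) x)) := by
    intro t Φ h a ha y
    rw [ev_push, ev_push, map_mul, h _ (push_central (al_bij _) ha)]
    dsimp only
    rw [bv_D0 hG M hκ hu hs hI t ha]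
  refine Nat.card_congr (Equiv.ofBijective
    (fun Φ => ⟨D.rs Φ.1, ?_, ?_, ?_⟩) ⟨?_, ?_⟩)
  · have h3 := (lies_iff _ _).1 Φ.2.2.2
    rw [hb'] at h3
    exact D.rs_irr Φ.2.1 (htr h3)
  · have h3 := inv_iff.1 Φ.2.2.1
    rw [inv_iff]
    intro g x
    obtain ⟨t, ht⟩ := hκ (1, g)
    have h4 := hrs t Φ.1 x
    rw [ht] at h4
    rw [← h4]
    congr 1
    funext y
    exact h3 _ _
  · have h3 := (lies_iff _ _).1 Φ.2.2.2
    rw [hb'] at h3
    exact (lies_iff _ _).2 fun w hw z => D.rs_block (fun f hf y => h3 f hf y) w hw z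
  · intro Φ Ψ h
    have h1 : D.rs Φ.1 = D.rs Ψ.1 := congrArg Subtype.val h
    have h3 := (lies_iff _ _).1 Φ.2.2.2
    have h4 := (lies_iff _ _).1 Ψ.2.2.2
    rw [hb'] at h3 h4
    apply Subtype.ext
    rw [← D.L_rs (irr_class Φ.2.1) (htr h3), h1, D.L_rs (irr_class Ψ.2.1) (htr h4)]
  · rintro ⟨φ, h1, h2, h3⟩
    have h4 := (lies_iff _ _).1 h3
    have h5 : Lies (fun a => bv B (D.ψ (res _ a))) (D.L φ) := fun a ha y =>
      D.L_block (fun w hw z => h4 w hw z) a ha y
    have h6 : IsIrrTrace (D.L φ) := D.L_irr h1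
    have h7 : D.rs (D.L φ) = φ := D.rs_L (irr_class h1)
    refine ⟨⟨D.L φ, h6, ?_, ?_⟩, Subtype.ext h7⟩
    · rw [inv_iff' hXT (irr_class h6)]
      intro t x
      have h8 : IsClassFun (fun x => D.L φ (al (t : X) x)) := by
        intro g y
        change D.L φ (al (t : X) (g * y * g⁻¹)) = D.L φ (al (t : X) y)
        rw [map_mul, map_mul, map_inv]
        exact irr_class h6 _ _
      have h9 := D.L_rs h8 (htr (hal t h5))
      have h10 : D.rs (fun x => D.L φ (al (t : X) x)) = φ := by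
        funext g
        rw [hrs, h7]
        exact (inv_iff.1 h2) _ _
      rw [h10] at h9
      exact (congrFun h9 x).symm
    · rw [lies_iff, hb']
      exact h5

end main

end Pool.Agent.Helper18.NV
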