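import Pool.Agent.Helper18.NV.Pair

/-!
# Transfer of Navarro's equality
-/

set_option autoImplicit false
set_option linter.unusedSectionVars false
set_option maxHeartbeats 1000000

open scoped Classical
open MonoidAlgebra

noncomputable section

namespace Pool.Agent.Helper18.NV

open Pool.Agent.Helper18.BR Pool.Agent.Helper18.AW
open Pool.Agent.Y63.NV (conv IsClassFun InZ IsIrrTrace IsInvUnder IsInvBlock numIBr Navarro)

section dat

variable {F : Type} [Field F] {Y : Type} [Group Y] [Finite Y] {G : Type} [Group G] [Finite G]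
  {T : Subgroup Y} (D : Dat F G T)

theorem Dat.tr_sec {f : MonoidAlgebra F Y} (hf : ∀ y, f * y = y * f) :
    tr (D.ℓ (D.ψ (res T f))) = tr D.e * f := by
  unfold tr
  rw [Finset.sum_mul]
  refine Finset.sum_congr rfl fun q _ => ?_
  rw [← D.mid]
  have h1 : cj (rp q) f = f := cj_of_central hf _
  have h2 : inc T D.e * f * inc T D.e = inc T D.e * f := by
    rw [mul_assoc, hf, ← mul_assoc, ← map_mul, D.idem]
  rw [h2, cj_hom, h1]

theorem Dat.tr_mul {w w' : MonoidAlgebra F G} (hw : ∀ z, w * z = z * w)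
    (hw' : ∀ z, w' * z = z * w') : tr (X := Y) (D.ℓ (w * w')) = tr (D.ℓ w) * tr (D.ℓ w') := by
  have h1 : ∀ y, tr (D.ℓ w) * y = y * tr (D.ℓ w) := tr_central (D.sec_central hw)
  have h2 : ∀ y, tr (D.ℓ w') * y = y * tr (D.ℓ w') := tr_central (D.sec_central hw')
  have h3 : D.ψ (res T (tr (D.ℓ w))) = w := by
    rw [D.psi_tr (D.sec_central hw) (D.sec' w), D.sec]
  have h4 : D.ψ (res T (tr (D.ℓ w'))) = w' := by
    rw [D.psi_tr (D.sec_central hw') (D.sec' w'), D.sec]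
  have h5 : tr D.e * tr (D.ℓ w) = tr (D.ℓ w) := by rw [← D.tr_sec h1, h3]
  have h6 : ∀ y, tr (D.ℓ w) * tr (D.ℓ w') * y = y * (tr (D.ℓ w) * tr (D.ℓ w')) := fun y => by
    rw [mul_assoc, h2, ← mul_assoc, h1, mul_assoc]
  have h7 := D.tr_sec h6
  rw [D.psi_mul h1, h3, h4, ← mul_assoc, h5] at h7
  exact h7

end dat

section sup

variable {A : Type} [Group A]

theorem sup_top_iff {N : Subgroup A} [hN : N.Normal] {H : Subgroup A} :
    N ⊔ H = ⊤ ↔ ∀ x : A, ∃ h ∈ H, x * h⁻¹ ∈ N := by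
  constructor
  · intro h x
    have h1 : x ∈ N ⊔ H := by rw [h]; trivial
    obtain ⟨n, hn, y, hy, rfl⟩ := Subgroup.mem_sup_of_normal_left.1 h1
    exact ⟨y, hy, by rwa [mul_inv_cancel_right]⟩
  · intro h
    rw [eq_top_iff]
    intro x _
    obtain ⟨y, hy, hn⟩ := h x
    have h1 : x = x * y⁻¹ * y := by group
    rw [h1]
    exact Subgroup.mul_mem _ (Subgroup.mem_sup_left hn) (Subgroup.mem_sup_right hy)

theorem cover_smul {p : ℕ} {N : Subgroup A} [hN : N.Normal] (x : A) (Q : PSub p A) :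
    N ⊔ (x • Q).1 = ⊤ ↔ N ⊔ Q.1 = ⊤ := by
  have key : ∀ (x : A) (Q : PSub p A), N ⊔ Q.1 = ⊤ → N ⊔ (x • Q).1 = ⊤ := by
    intro x Q h
    rw [sup_top_iff] at h ⊢
    intro y
    obtain ⟨z, hz, hn⟩ := h (x⁻¹ * y * x)
    refine ⟨x * z * x⁻¹, ⟨z, hz, rfl⟩, ?_⟩
    have h1 := hN.conj_mem _ hn x
    have h2 : x * (x⁻¹ * y * x * z⁻¹) * x⁻¹ = y * (x * z * x⁻¹)⁻¹ := by group
    rwa [h2] at h1
  refine ⟨fun h => ?_, key x Q⟩
  have h1 := key x⁻¹ _ h
  rwa [inv_smul_smul] at h1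

end sup

section main

variable {F : Type} [Field F] {X S Γ : Type} [Group X] [Finite X]
  [CommGroup S] [Finite S] [Group Γ] [Finite Γ] {T : Subgroup X} {κ : T →* S × Γ}
  {X₀ : Subgroup X} {G : Subgroup Γ} [hX₀ : X₀.Normal] [G.Normal]
  (hG : ∀ t : T, (t : X) ∈ X₀ ↔ (κ t).2 ∈ G)
  (hXT : ∀ x : X, ∃ t : T, x * (t : X)⁻¹ ∈ X₀)
  {m : Type} [Fintype m] [Nonempty m] (M : MatBlock F S m)
  {u : F} (hκ : Function.Surjective κ) (hu : u * (Nat.card κ.ker : F) = 1) (hs : Sep κ)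

include hG in
theorem psi_inc (f : Zs F X₀) : psi1 M κ (res T f.1) =
    inc G (psi1 M (k0 hG) (res (T.subgroupOf X₀) (res X₀ f.1))) := by
  rw [← psi1_compat, inc_res]

/-- the projection -/
def prj : Zs F X₀ →ₐ[F] Zs F G where
  toFun f := ⟨(D1 M hκ hu hs).ψ (res T f.1), psi_cj _ (zs_central f), fun x hx => by
    change (psi1 M κ (res T f.1)).coeff x = 0
    rw [psi_inc hG, inc_coeff_not _ _ hx]⟩
  map_one' := by
    apply Subtype.ext
    have h1 : ((1 : Zs F X₀) : MonoidAlgebra F X) = inc T 1 := (map_one _).symm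
    change (D1 M hκ hu hs).ψ (res T ((1 : Zs F X₀) : MonoidAlgebra F X)) = 1
    rw [h1, res_inc, map_one]
  map_mul' a b := Subtype.ext ((D1 M hκ hu hs).psi_mul (zs_central a))
  map_zero' := by
    apply Subtype.ext
    change (D1 M hκ hu hs).ψ (res T 0) = 0
    rw [res_zero, map_zero]
  map_add' a b := by
    apply Subtype.ext
    change (D1 M hκ hu hs).ψ (res T (a.1 + b.1)) = _
    rw [res_add, map_add]
    rfl
  commutes' r := by
    apply Subtype.ext
    have h1 : ((algebraMap F (Zs F X₀) r : Zs F X₀) : MonoidAlgebra F X) = inc T (r • 1) := by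
      rw [Algebra.algebraMap_eq_smul_one, map_smul, map_one]
      rfl
    change (D1 M hκ hu hs).ψ (res T ((algebraMap F (Zs F X₀) r : Zs F X₀) :
      MonoidAlgebra F X)) = _
    rw [h1, res_inc, map_smul, map_one, Algebra.algebraMap_eq_smul_one]
    rfl

theorem prj_coe (f : Zs F X₀) : (prj hG M hκ hu hs f).1 = (D1 M hκ hu hs).ψ (res T f.1) := rfl

/-- the lift -/
def lf (w : Zs F G) : Zs F X₀ := ⟨tr ((D1 M hκ hu hs).ℓ w.1),
  cj_tr ((D1 M hκ hu hs).sec_central (zs_central w)), fun x hx => by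
    rw [tr_eq_sum, coeff_sum, Finset.sum_apply']
    refine Finset.sum_eq_zero fun q _ => ?_
    unfold cf
    rw [cj_coeff, inc_coeff]
    split_ifs with h
    · change (lft u κ M.ε w.1).coeff _ = 0
      rw [lft_coeff, w.2.2, mul_zero, mul_zero]
      rw [← hG]
      intro h1
      apply hx
      have h2 := hX₀.conj_mem _ h1 (rp q)
      have h3 : rp q * ((rp q)⁻¹ * x * rp q) * (rp q)⁻¹ = x := by group
      rwa [h3] at h2
    · rfl⟩

theorem lf_coe (w : Zs F G) : (lf hG M hκ hu hs w).1 = tr ((D1 M hκ hu hs).ℓ w.1) := rfl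

theorem prj_lf (w : Zs F G) : prj hG M hκ hu hs (lf hG M hκ hu hs w) = w := by
  apply Subtype.ext
  rw [prj_coe, lf_coe, Dat.psi_tr _ ((D1 M hκ hu hs).sec_central (zs_central w))
    ((D1 M hκ hu hs).sec' _), Dat.sec]

theorem lf_mul (w w' : Zs F G) :
    lf hG M hκ hu hs (w * w') = lf hG M hκ hu hs w * lf hG M hκ hu hs w' :=
  Subtype.ext ((D1 M hκ hu hs).tr_mul (zs_central w) (zs_central w'))

theorem lf_prj (f : Zs F X₀) :
    lf hG M hκ hu hs (prj hG M hκ hu hs f) = lf hG M hκ hu hs 1 * f := by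
  apply Subtype.ext
  rw [lf_coe, prj_coe, Dat.tr_sec _ (zs_central f)]
  change _ = tr ((D1 M hκ hu hs).ℓ 1) * f.1
  rw [Dat.sec_one]

theorem lf_add (w w' : Zs F G) :
    lf hG M hκ hu hs (w + w') = lf hG M hκ hu hs w + lf hG M hκ hu hs w' := by
  apply Subtype.ext
  change tr ((D1 M hκ hu hs).ls (w.1 + w'.1)) =
    tr ((D1 M hκ hu hs).ls w.1) + tr ((D1 M hκ hu hs).ls w'.1)
  rw [map_add]
  unfold tr
  rw [← Finset.sum_add_distrib]
  refine Finset.sum_congr rfl fun q _ => ?_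
  rw [map_add, cj_add]

theorem lf_smul (c : F) (w : Zs F G) :
    lf hG M hκ hu hs (c • w) = c • lf hG M hκ hu hs w := by
  apply Subtype.ext
  change tr ((D1 M hκ hu hs).ls (c • w.1)) = c • tr ((D1 M hκ hu hs).ls w.1)
  rw [map_smul]
  unfold tr
  rw [Finset.smul_sum]
  refine Finset.sum_congr rfl fun q _ => ?_
  rw [map_smul]
  unfold cj
  rw [mul_smul_comm, smul_mul_assoc]

variable {B : (G → F) → F} (hB : Pool.Agent.Y63.NV.IsBlock B)

theorem homS_eq (f : Zs F X₀) :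
    homS (bD_block (D0 hG M hκ hu hs) hB) f = homS hB (prj hG M hκ hu hs f) := by
  rw [homS_apply, homS_apply, bv_bD, prj_coe]
  change _ = bv B (res G (psi1 M κ (res T f.1)))
  rw [psi_inc hG, res_inc]
  rfl

theorem sepH_lf {z : Zs F G} (hz : SepH (homS hB) z) :
    SepH (homS (bD_block (D0 (X₀ := X₀) hG M hκ hu hs) hB)) (lf hG M hκ hu hs z) := by
  refine ⟨by rw [← lf_mul, hz.1], by rw [homS_eq, prj_lf]; exact hz.2.1, fun B₂ h => ?_⟩
  have h1 : B₂ (lf hG M hκ hu hs 1) = 1 := by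
    have h2 : lf (X₀ := X₀) hG M hκ hu hs 1 * lf hG M hκ hu hs z = lf hG M hκ hu hs z := by
      rw [← lf_mul, one_mul]
    have h3 := congrArg B₂ h2
    rwa [map_mul, h, mul_one] at h3
  let C : Zs F G →ₐ[F] F :=
    { toFun := fun w => B₂ (lf hG M hκ hu hs w)
      map_one' := h1
      map_mul' := fun w w' => by rw [lf_mul, map_mul]
      map_zero' := by
        have h4 := lf_smul (X₀ := X₀) hG M hκ hu hs 0 0
        rw [zero_smul, zero_smul] at h4
        rw [h4, map_zero]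
      map_add' := fun w w' => by rw [lf_add, map_add]
      commutes' := fun r => by
        rw [Algebra.algebraMap_eq_smul_one, lf_smul, map_smul, h1, smul_eq_mul, mul_one]
        rfl }
  have h4 : C = homS hB := hz.2.2 C h
  ext f
  rw [homS_eq hG M hκ hu hs hB, ← h4]
  change B₂ f = B₂ (lf hG M hκ hu hs (prj hG M hκ hu hs f))
  rw [lf_prj, map_mul, h1, one_mul]

section count

variable {p : ℕ} [hp : Fact p.Prime] [CharP F p] (hS : ¬ p ∣ Nat.card S)
  (hK : ¬ p ∣ Nat.card κ.ker) (σ : Γ →* T) (hσ : ∀ g, κ (σ g) = (1, g))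

include hS hK hσ hXT in
theorem wt_lf {z : Zs F G} (hz : z * z = z) :
    wtP p (fun Q => X₀ ⊔ Q.1 = ⊤) (lf hG M hκ hu hs z).1 =
      wtP p (fun Q => G ⊔ Q.1 = ⊤) z.1 := by
  rw [lf_coe]
  have hcover : ∀ R : PSub p T, (∀ t : T, ∃ r ∈ R.1, (t * r⁻¹ : T).1 ∈ X₀) ↔
      G ⊔ (img κ R).1 = ⊤ := by
    intro R
    rw [sup_top_iff]
    constructor
    · intro h g
      obtain ⟨t, ht⟩ := hκ (1, g)
      obtain ⟨r, hr, h1⟩ := h t
      refine ⟨(κ r).2, ⟨r, hr, rfl⟩, ?_⟩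
      rw [hG, map_mul, map_inv, ht] at h1
      exact h1
    · intro h t
      obtain ⟨_, ⟨r, hr, rfl⟩, h1⟩ := h (κ t).2
      refine ⟨r, hr, ?_⟩
      rw [hG, map_mul, map_inv]
      exact h1
  have h1 := wtP_tr (X := X) p ((D1 M hκ hu hs).sec_central (zs_central z))
    (by rw [← Dat.sec_mul]; congr 1; exact congrArg Subtype.val hz)
    (lft_orth M hs z.1) (P := fun Q => X₀ ⊔ Q.1 = ⊤) (fun x Q => cover_smul x Q)
    (P' := fun R => ∀ t : T, ∃ r ∈ R.1, (t * r⁻¹ : T).1 ∈ X₀) ?_ ?_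
  · rw [h1]
    exact wtP_lft hκ hS hK M hu σ hσ z.2.1 (fun x Q => cover_smul x Q) hcover
  · intro x R
    rw [hcover, hcover, img_smul]
    exact cover_smul _ _
  · intro q R
    rw [sup_top_iff]
    constructor
    · intro h t
      obtain ⟨_, ⟨r, hr, rfl⟩, h2⟩ := h (rp q * t * (rp q)⁻¹)
      refine ⟨r, hr, ?_⟩
      have h3 := hX₀.conj_mem _ h2 (rp q)⁻¹
      change (t : X) * (r : X)⁻¹ ∈ X₀
      have h4 : (rp q)⁻¹ * (rp q * t * (rp q)⁻¹ * (jq q r)⁻¹) * ((rp q)⁻¹)⁻¹ =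
          (t : X) * (r : X)⁻¹ := by
        rw [jq_apply]
        group
      rwa [h4] at h3
    · intro h x
      obtain ⟨t, ht⟩ := hXT ((rp q)⁻¹ * x * rp q)
      obtain ⟨r, hr, h2⟩ := h t
      refine ⟨jq q r, ⟨r, hr, rfl⟩, ?_⟩
      have h3 := hX₀.conj_mem _ (X₀.mul_mem ht h2) (rp q)
      have h4 : rp q * ((rp q)⁻¹ * x * rp q * (t : X)⁻¹ * ((t * r⁻¹ : T) : X)) * (rp q)⁻¹ =
          x * (jq q r)⁻¹ := by
        rw [jq_apply]
        push_cast
        group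
      rwa [h4] at h3

include hS hK hσ hXT hG hs hκ hu M in
/-- **Transfer** -/
theorem navarro_transfer [IsAlgClosed F] (red : integralClosure ℤ ℂ →+* F)
    (h : Navarro p red X₀) : Navarro p red G := by
  intro B hB hI
  obtain ⟨z, hz⟩ := exists_sepH (zs_comm (G := G)) (homS hB)
  have h1 := h (bD (D0 hG M hκ hu hs) B) (bD_block _ hB) (bD_inv hG hXT M hκ hu hs hI)
  have h2 := sepH_lf (X₀ := X₀) hG M hκ hu hs hB hz
  rw [numIBr_eq hG hXT M hκ hu hs hB hI, rhs_eq red (zs_inZ _)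
    (sepr_of_sepH (bD_block (D0 hG M hκ hu hs) hB) h2), mk_coe,
    wt_lf hG hXT M hκ hu hs hS hK σ hσ hz.1] at h1
  rw [h1, rhs_eq red (zs_inZ _) (sepr_of_sepH hB hz), mk_coe]

end count

end main

end Pool.Agent.Helper18.NV
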