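import Pool.Agent.Helper18.NV.Dz2
import Pool.Agent.Helper18.AW.Bq

/-!
# Irreducible traces and stabilizers
-/

set_option autoImplicit false
set_option linter.unusedSectionVars false
set_option maxHeartbeats 1000000

open scoped Classical
open MonoidAlgebra

noncomputable section

namespace Pool.Agent.Helper18.NV

open Pool.Agent.Helper18.BR Pool.Agent.Helper18.AW
open Pool.Agent.Y63.NV (IsIrrTrace IsClassFun)
open Pool.Agent.E8helper60.AW (mat_of_irr irr_of_mat)

section ev

variable {F : Type} [Field F] {Y : Type} [Group Y] [Finite Y]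

/-- the linear extension of a function on the group -/
def ev (Φ : Y → F) : MonoidAlgebra F Y →ₗ[F] F where
  toFun a := ∑ᶠ y, a.coeff y * Φ y
  map_add' a b := by
    rw [← finsum_add_distrib (Set.toFinite _) (Set.toFinite _)]
    refine finsum_congr fun y => ?_
    rw [coeff_add, Finsupp.add_apply, add_mul]
  map_smul' c a := by
    rw [RingHom.id_apply, smul_finsum' c (Set.toFinite _)]
    refine finsum_congr fun y => ?_
    rw [coeff_smul, Finsupp.smul_apply, smul_eq_mul, smul_eq_mul, mul_assoc]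

theorem ev_single (Φ : Y → F) (y : Y) (r : F) : ev Φ (single y r) = r * Φ y := by
  change ∑ᶠ y', (single y r : MonoidAlgebra F Y).coeff y' * Φ y' = _
  rw [finsum_eq_single _ y]
  · rw [coeff_single, Finsupp.single_eq_same]
  · intro x hx
    rw [coeff_single, Finsupp.single_apply, if_neg (Ne.symm hx), zero_mul]

theorem ev_one (Φ : Y → F) (y : Y) : ev Φ (single y 1) = Φ y := by rw [ev_single, one_mul]

/-- linear maps which agree with the values on the group elements -/
theorem ev_unique {Φ : Y → F} {l : MonoidAlgebra F Y →ₗ[F] F} (h : ∀ y, l (single y 1) = Φ y)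
    (a : MonoidAlgebra F Y) : ev Φ a = l a := by
  induction a using MonoidAlgebra.induction_linear with
  | zero => rw [map_zero, map_zero]
  | add a b ha hb => rw [map_add, map_add, ha, hb]
  | single y r =>
    have h1 : (single y r : MonoidAlgebra F Y) = r • single y 1 := by
      rw [smul_single, smul_eq_mul, mul_one]
    rw [h1, map_smul, map_smul, ev_one, h]

theorem ev_comm {Φ : Y → F} (h : IsClassFun Φ) (a b : MonoidAlgebra F Y) :
    ev Φ (a * b) = ev Φ (b * a) := by
  induction a using MonoidAlgebra.induction_linear with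
  | zero => rw [zero_mul, mul_zero]
  | add a a' ha ha' => rw [add_mul, mul_add, map_add, map_add, ha, ha']
  | single y r =>
    induction b using MonoidAlgebra.induction_linear with
    | zero => rw [zero_mul, mul_zero]
    | add a a' ha ha' => rw [add_mul, mul_add, map_add, map_add, ha, ha']
    | single z s =>
      rw [single_mul_single, single_mul_single, ev_single, ev_single, mul_comm r s]
      congr 1
      have := h y (z * y)
      rw [← this]
      congr 1
      group

theorem ev_mk {φ : Y → F} (f : Y → F) (x : Y) :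
    ev φ (mk f * single x 1) = ∑ᶠ g : Y, f g * φ (g * x) := by
  change ∑ᶠ y, (mk f * single x 1 : MonoidAlgebra F Y).coeff y * φ y = _
  rw [← finsum_comp_equiv (Equiv.mulRight x)]
  refine finsum_congr fun y => ?_
  rw [coeff_mul_single_apply, mk_coeff, Equiv.coe_mulRight, mul_inv_cancel_right, mul_one]

theorem acts_iff {φ : Y → F} (f : Y → F) (c : F) :
    (∀ x : Y, ∑ᶠ g : Y, f g * φ (g * x) = c * φ x) ↔ ∀ y, ev φ (mk f * y) = c * ev φ y := by
  constructor
  · intro h y
    induction y using MonoidAlgebra.induction_linear with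
    | zero => rw [mul_zero, map_zero, mul_zero]
    | add a b ha hb => rw [mul_add, map_add, map_add, ha, hb, mul_add]
    | single y r =>
      have h1 : (single y r : MonoidAlgebra F Y) = r • single y 1 := by
        rw [smul_single, smul_eq_mul, mul_one]
      rw [h1, mul_smul_comm, map_smul, map_smul, ev_mk, h, ev_one, smul_eq_mul, smul_eq_mul]
      ring
  · intro h x
    rw [← ev_mk, h, ev_one]

theorem irr_ev {d : ℕ} {φ : Y → F} {π : MonoidAlgebra F Y →ₐ[F] Matrix (Fin d) (Fin d) F}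
    (h : ∀ g, φ g = (π (single g 1)).trace) (a : MonoidAlgebra F Y) : ev φ a = (π a).trace :=
  ev_unique (l := (Matrix.traceLinearMap (Fin d) F F).comp π.toLinearMap) (fun y => (h y).symm) a

theorem irr_class [IsAlgClosed F] {φ : Y → F} (h : IsIrrTrace φ) : IsClassFun φ := by
  obtain ⟨d, _, π, -, hφ⟩ := mat_of_irr h
  intro g x
  have h1 : (single (g * x * g⁻¹) 1 : MonoidAlgebra F Y) =
      single g 1 * single x 1 * single g⁻¹ 1 := by
    rw [single_mul_single, single_mul_single, mul_one, mul_one]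
  rw [hφ, hφ, h1, map_mul, Matrix.trace_mul_comm, ← map_mul, ← mul_assoc, single_mul_single,
    inv_mul_cancel, mul_one, ← one_def, one_mul]

/-- an irreducible trace in the span of irreducible traces -/
theorem mem_of_span [IsAlgClosed F] {Φ : Y → F} (hΦ : IsIrrTrace Φ) {ι : Type} (s : Finset ι)
    (c : ι → F) (f : ι → Y → F) (hf : ∀ i ∈ s, IsIrrTrace (f i)) (h : Φ = ∑ i ∈ s, c i • f i) :
    ∃ i ∈ s, f i = Φ := by
  by_contra hno
  push Not at hno
  have h1 := (Pool.Agent.Y914.NV.irr F Y).2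
  have h2 : Φ ∈ Submodule.span F ((fun φ : {φ : Y → F // IsIrrTrace φ} => φ.1) ''
      {φ | φ.1 ≠ Φ}) := by
    rw [h]
    refine Submodule.sum_mem _ fun i hi => Submodule.smul_mem _ _ (Submodule.subset_span ?_)
    exact ⟨⟨f i, hf i hi⟩, h ▸ hno i hi, rfl⟩
  exact h1.notMem_span_image (s := {φ | φ.1 ≠ Φ}) (x := ⟨Φ, hΦ⟩) (fun h => h rfl) h2

end ev

section red

variable {F : Type} [Field F] {Y : Type} [Group Y] [Finite Y] {G : Type} [Group G] [Finite G]

/-- reduction data -/
structure Dat (F : Type) [Field F] {Y : Type} [Group Y] [Finite Y] (G : Type) [Group G] [Finite G]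
    (T : Subgroup Y) where
  ψ : MonoidAlgebra F T →ₐ[F] MonoidAlgebra F G
  e : MonoidAlgebra F T
  ℓ : MonoidAlgebra F G → MonoidAlgebra F T
  ker : ∀ x, ψ x = 0 ↔ e * x = 0
  central : ∀ x, e * x = x * e
  idem : e * e = e
  orth : Orth e
  sec : ∀ z, ψ (ℓ z) = z
  sec' : ∀ z, e * ℓ z = ℓ z

variable {T : Subgroup Y} (D : Dat F G T)

namespace Dat

theorem surj : Function.Surjective D.ψ := fun z => ⟨D.ℓ z, D.sec z⟩

theorem map_e : D.ψ D.e = 1 := map_c D.ψ D.ker D.idem

theorem ext {x y : MonoidAlgebra F T} (hx : D.e * x = x) (hy : D.e * y = y)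
    (h : D.ψ x = D.ψ y) : x = y := eq_of_map D.ψ D.ker hx hy h

theorem sec_psi (y : MonoidAlgebra F T) : D.ℓ (D.ψ y) = D.e * y := by
  refine D.ext (D.sec' _) (by rw [← mul_assoc, D.idem]) ?_
  rw [D.sec, map_mul, D.map_e, one_mul]

theorem sec_mul (z w : MonoidAlgebra F G) : D.ℓ (z * w) = D.ℓ z * D.ℓ w := by
  refine D.ext (D.sec' _) (by rw [← mul_assoc, D.sec']) ?_
  rw [D.sec, map_mul, D.sec, D.sec]

theorem sec_one : D.ℓ 1 = D.e := by
  refine D.ext (D.sec' _) D.idem ?_
  rw [D.sec, D.map_e]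

theorem sec_central {w : MonoidAlgebra F G} (hw : ∀ z, w * z = z * w) (y : MonoidAlgebra F T) :
    D.ℓ w * y = y * D.ℓ w := by
  refine D.ext (by rw [← mul_assoc, D.sec']) ?_ ?_
  · rw [← mul_assoc, D.central, mul_assoc, D.sec']
  · rw [map_mul, map_mul, D.sec, hw]

/-- the section as a linear map -/
def ls : MonoidAlgebra F G →ₗ[F] MonoidAlgebra F T where
  toFun := D.ℓ
  map_add' z w := by
    refine D.ext (D.sec' _) (by rw [mul_add, D.sec', D.sec']) ?_
    rw [D.sec, map_add, D.sec, D.sec]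
  map_smul' c z := by
    refine D.ext (D.sec' _) (by rw [RingHom.id_apply, mul_smul_comm, D.sec']) ?_
    rw [D.sec, RingHom.id_apply, map_smul, D.sec]

theorem ls_apply (z : MonoidAlgebra F G) : D.ls z = D.ℓ z := rfl

/-- the trace of a central element -/
theorem inc_mul_tr' {a : MonoidAlgebra F T} (hc : ∀ y, a * y = y * a) (ha : D.e * a = a) :
    inc T D.e * tr a = inc T a := by
  unfold tr
  rw [Finset.mul_sum, Finset.sum_eq_single (QuotientGroup.mk 1)]
  · rw [cj_rp_mk hc, cj_one, ← map_mul, ha]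
  · intro q _ hq
    have h1 : inc T a = inc T D.e * inc T a := by rw [← map_mul, ha]
    rw [h1, cj_hom, ← mul_assoc, inc_mul_cj D.orth, zero_mul]
    intro h
    apply hq
    rw [← QuotientGroup.out_eq' q]
    symm
    rw [QuotientGroup.eq]
    simpa using h
  · intro h
    exact absurd (Finset.mem_univ _) h

/-- the middle part -/
theorem mid (z : MonoidAlgebra F Y) : inc T D.e * z * inc T D.e = inc T (D.ℓ (D.ψ (res T z))) := by
  rw [orth_mid D.orth, D.sec_psi, mul_assoc, ← D.central, ← mul_assoc, D.idem]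

theorem mid_inj {z w : MonoidAlgebra F Y}
    (h : inc T D.e * z * inc T D.e = inc T D.e * w * inc T D.e) :
    D.ψ (res T z) = D.ψ (res T w) := by
  rw [D.mid, D.mid] at h
  have h1 := congrArg D.ψ (inc_inj T h)
  rwa [D.sec, D.sec] at h1

theorem psi_tr {a : MonoidAlgebra F T} (hc : ∀ y, a * y = y * a) (ha : D.e * a = a) :
    D.ψ (res T (tr a)) = D.ψ a := by
  have h1 : D.ψ a = D.ψ (res T (inc T a)) := by rw [res_inc]
  rw [h1]
  apply D.mid_inj
  rw [D.inc_mul_tr' hc ha, ← map_mul (inc T) D.e a, ha]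

theorem psi_mul {f z : MonoidAlgebra F Y} (hf : ∀ y, f * y = y * f) :
    D.ψ (res T (f * z)) = D.ψ (res T f) * D.ψ (res T z) := by
  have h1 : inc T D.e * (f * z) * inc T D.e =
      (inc T D.e * f * inc T D.e) * (inc T D.e * z * inc T D.e) := by
    have h2 : inc T D.e * inc T D.e = inc T D.e := by rw [← map_mul, D.idem]
    calc inc T D.e * (f * z) * inc T D.e = inc T D.e * inc T D.e * (f * z) * inc T D.e := by
          rw [h2]
      _ = inc T D.e * (inc T D.e * f) * z * inc T D.e := by simp only [mul_assoc]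
      _ = inc T D.e * (f * (inc T D.e * inc T D.e)) * z * inc T D.e := by rw [h2, hf]
      _ = _ := by simp only [mul_assoc]
  rw [D.mid, D.mid, D.mid, ← map_mul, ← D.sec_mul] at h1
  have h3 := congrArg D.ψ (inc_inj T h1)
  rwa [D.sec, D.sec] at h3

theorem psi_res_inc (a : MonoidAlgebra F T) : D.ψ (res T (inc T a)) = D.ψ a := by rw [res_inc]

theorem psi_central {f : MonoidAlgebra F Y} (hf : ∀ y, f * y = y * f) (z : MonoidAlgebra F G) :
    D.ψ (res T f) * z = z * D.ψ (res T f) := by
  obtain ⟨a, rfl⟩ := D.surj z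
  have h1 := D.psi_mul (z := inc T a) hf
  rw [D.psi_res_inc] at h1
  have h2 : res T (f * inc T a) = a * res T f := by
    rw [hf]
    induction a using MonoidAlgebra.induction_linear with
    | zero => rw [map_zero, zero_mul, zero_mul, res_zero]
    | add a b ha hb =>
      have h3 : D.ψ (res T (f * inc T a)) = D.ψ (res T f) * D.ψ a := by
        rw [D.psi_mul hf, D.psi_res_inc]
      have h4 : D.ψ (res T (f * inc T b)) = D.ψ (res T f) * D.ψ b := by
        rw [D.psi_mul hf, D.psi_res_inc]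
      rw [map_add, add_mul, res_add, ha h3, hb h4, add_mul]
    | single t r =>
      ext s
      rw [inc_single, res_coeff, coeff_single_mul_apply, coeff_single_mul_apply, res_coeff]
      rfl
  rw [← h1, h2, map_mul]

/-! ### induction and restriction of traces -/

/-- induction -/
def L (φ : G → F) : Y → F := fun x => ∑ i : Y ⧸ T, ev φ (ind D.ψ (single x 1) i i)

/-- restriction -/
def rs (Φ : Y → F) : G → F := fun g => ev Φ (inc T (D.ℓ (single g 1)))

theorem ev_L (φ : G → F) (y : MonoidAlgebra F Y) :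
    ev (D.L φ) y = ∑ i : Y ⧸ T, ev φ (ind D.ψ y i i) := by
  let l : MonoidAlgebra F Y →ₗ[F] F :=
    { toFun := fun y => ∑ i : Y ⧸ T, ev φ (ind D.ψ y i i)
      map_add' := fun a b => by
        rw [← Finset.sum_add_distrib]
        refine Finset.sum_congr rfl fun i _ => ?_
        rw [map_add, Matrix.add_apply, map_add]
      map_smul' := fun c a => by
        rw [RingHom.id_apply, Finset.smul_sum]
        refine Finset.sum_congr rfl fun i _ => ?_
        rw [map_smul, Matrix.smul_apply, map_smul] }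
  exact ev_unique (l := l) (fun y => rfl) y

theorem ev_rs (Φ : Y → F) (z : MonoidAlgebra F G) : ev (D.rs Φ) z = ev Φ (inc T (D.ℓ z)) :=
  ev_unique (l := (ev Φ).comp ((inc T).toLinearMap.comp D.ls)) (fun y => rfl) z

theorem L_rs {Φ : Y → F} (hΦ : IsClassFun Φ) (h1 : ∀ y, ev Φ (tr D.e * y) = ev Φ y) :
    D.L (D.rs Φ) = Φ := by
  funext x
  rw [← ev_one Φ x, ← h1]
  unfold L
  have h2 : ∀ i : Y ⧸ T, ev (D.rs Φ) (ind D.ψ (single x 1) i i) =
      ev Φ (cj (rp i) (inc T D.e) * single x 1) := by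
    intro i
    rw [ev_rs, ind_apply, ← D.mid]
    have h3 : inc T D.e * inc T D.e = inc T D.e := by rw [← map_mul, D.idem]
    unfold cj
    calc ev Φ (inc T D.e * (single (rp i)⁻¹ 1 * single x 1 * single (rp i) 1) * inc T D.e)
        = ev Φ (inc T D.e * inc T D.e * (single (rp i)⁻¹ 1 * single x 1 * single (rp i) 1)) := by
          rw [ev_comm hΦ]
          simp only [mul_assoc]
      _ = ev Φ ((inc T D.e * single (rp i)⁻¹ 1 * single x 1) * single (rp i) 1) := by
          rw [h3]
          simp only [mul_assoc]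
      _ = _ := by
          rw [ev_comm hΦ]
          simp only [mul_assoc]
  rw [Finset.sum_congr rfl fun i _ => h2 i, ← map_sum, ← Finset.sum_mul]
  rfl

theorem rs_L {φ : G → F} (hφ : IsClassFun φ) : D.rs (D.L φ) = φ := by
  funext g
  unfold rs
  rw [ev_L, Finset.sum_eq_single (QuotientGroup.mk 1)]
  · have h1 : rp (QuotientGroup.mk 1 : Y ⧸ T) ∈ T := by
      have h2 : (1 : Y)⁻¹ * rp (QuotientGroup.mk 1 : Y ⧸ T) ∈ T := by
        rw [← QuotientGroup.eq, QuotientGroup.out_eq']
      simpa using h2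
    rw [ind_apply]
    have h3 : (single (rp (QuotientGroup.mk 1 : Y ⧸ T))⁻¹ 1 * inc T (D.ℓ (single g 1)) *
        single (rp (QuotientGroup.mk 1 : Y ⧸ T)) 1 : MonoidAlgebra F Y) =
        inc T (single ⟨_, T.inv_mem h1⟩ 1 * D.ℓ (single g 1) * single ⟨_, h1⟩ 1) := by
      rw [map_mul, map_mul, inc_single, inc_single]
    rw [h3, res_inc, map_mul D.ψ, map_mul D.ψ, ev_comm hφ, ← mul_assoc, ← map_mul D.ψ,
      single_mul_single]
    have h4 : (⟨_, h1⟩ * ⟨_, T.inv_mem h1⟩ : T) = 1 := by
      ext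
      simp
    rw [h4, mul_one, ← one_def, map_one, one_mul, D.sec, ev_one]
  · intro i _ hi
    rw [ind_apply]
    have h0 : rp i ∉ T := by
      intro h
      apply hi
      rw [← QuotientGroup.out_eq' i]
      symm
      rw [QuotientGroup.eq]
      simpa using h
    have h1 : D.ψ (res T (single (rp i)⁻¹ 1 * inc T (D.ℓ (single g 1)) * single (rp i) 1)) =
        D.ψ (res T 0) := by
      apply D.mid_inj
      have h2 : inc T (D.ℓ (single g 1)) = inc T D.e * inc T (D.ℓ (single g 1)) := by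
        rw [← map_mul, D.sec']
      have h3 := D.orth (rp i)⁻¹ (fun h => h0 (by simpa using T.inv_mem h))
      rw [mul_zero, zero_mul, h2]
      calc inc T D.e * (single (rp i)⁻¹ 1 * (inc T D.e * inc T (D.ℓ (single g 1))) *
            single (rp i) 1) * inc T D.e = (inc T D.e * single (rp i)⁻¹ 1 * inc T D.e) *
            (inc T (D.ℓ (single g 1)) * single (rp i) 1 * inc T D.e) := by
            simp only [mul_assoc]
        _ = 0 := by rw [h3, zero_mul]
    rw [h1, res_zero, map_zero, map_zero]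
  · intro h
    exact absurd (Finset.mem_univ _) h

theorem ind_tr : ind D.ψ (tr D.e) = (1 : Matrix (Y ⧸ T) (Y ⧸ T) (MonoidAlgebra F G)) :=
  map_c _ (ind_spec D.central D.idem D.orth D.surj D.ker).2 (tr_mul_tr D.central D.idem D.orth)

theorem L_acts (φ : G → F) (y : MonoidAlgebra F Y) : ev (D.L φ) (tr D.e * y) = ev (D.L φ) y := by
  rw [ev_L, ev_L, map_mul, ind_tr, one_mul]

/-- induction of irreducible traces -/
theorem L_irr [IsAlgClosed F] {φ : G → F} (h : IsIrrTrace φ) : IsIrrTrace (D.L φ) := by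
  obtain ⟨d, _, π, hπ, hφ⟩ := mat_of_irr h
  let P : MonoidAlgebra F Y →ₐ[F] Matrix ((Y ⧸ T) × Fin d) ((Y ⧸ T) × Fin d) F :=
    (Matrix.compAlgEquiv (Y ⧸ T) (Fin d) F F).toAlgHom.comp (π.mapMatrix.comp (ind D.ψ))
  have hP1 : Function.Surjective (π.mapMatrix : Matrix (Y ⧸ T) (Y ⧸ T) (MonoidAlgebra F G) →ₐ[F]
      Matrix (Y ⧸ T) (Y ⧸ T) (Matrix (Fin d) (Fin d) F)) := by
    intro M
    choose f hf using hπ
    refine ⟨M.map f, ?_⟩
    ext i j : 2
    rw [AlgHom.mapMatrix_apply, Matrix.map_apply, Matrix.map_apply, hf]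
  have hP : Function.Surjective P :=
    (Matrix.compAlgEquiv (Y ⧸ T) (Fin d) F F).surjective.comp (hP1.comp
      (ind_spec D.central D.idem D.orth D.surj D.ker).1)
  let e : ((Y ⧸ T) × Fin d) ≃ Fin (Fintype.card ((Y ⧸ T) × Fin d)) := Fintype.equivFin _
  have hne : NeZero (Fintype.card ((Y ⧸ T) × Fin d)) := by
    refine ⟨?_⟩
    have : Nonempty ((Y ⧸ T) × Fin d) := ⟨(QuotientGroup.mk 1, 0)⟩
    exact Fintype.card_ne_zero
  let P1 := (Matrix.reindexAlgEquiv F F e).toAlgHom.comp P
  have h5 := irr_of_mat P1 ((Matrix.reindexAlgEquiv F F e).surjective.comp hP)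
  have h6 : (fun g => (P1 (single g 1)).trace) = D.L φ := by
    funext x
    change ((Matrix.reindexAlgEquiv F F e) (P (single x 1))).trace = _
    have h7 : ∀ M : Matrix ((Y ⧸ T) × Fin d) ((Y ⧸ T) × Fin d) F,
        ((Matrix.reindexAlgEquiv F F e) M).trace = M.trace := by
      intro M
      unfold Matrix.trace
      exact Fintype.sum_equiv e.symm _ _ fun i => rfl
    rw [h7]
    unfold L Matrix.trace
    rw [Fintype.sum_prod_type]
    refine Finset.sum_congr rfl fun i _ => ?_
    rw [irr_ev hφ]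
    rfl
  rw [← h6]
  exact h5

theorem rs_class {Φ : Y → F} (hΦ : IsClassFun Φ) : IsClassFun (D.rs Φ) := by
  intro g x
  have h1 : (single (g * x * g⁻¹) 1 : MonoidAlgebra F G) =
      single g 1 * single x 1 * single g⁻¹ 1 := by
    rw [single_mul_single, single_mul_single, mul_one, mul_one]
  rw [← ev_one (D.rs Φ), ← ev_one (D.rs Φ) x, ev_rs, ev_rs, h1, D.sec_mul, map_mul, ev_comm hΦ,
    ← map_mul, ← D.sec_mul, ← mul_assoc, single_mul_single, inv_mul_cancel, mul_one, ← one_def,
    one_mul]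

theorem rs_nil [IsAlgClosed F] {Φ : Y → F} (hΦ : IsIrrTrace Φ) (a : G → F)
    (ha : IsNilpotent (∑ᶠ g : G, single g (a g) : MonoidAlgebra F G)) :
    ∑ᶠ g : G, a g * D.rs Φ g = 0 := by
  have : Fintype G := Fintype.ofFinite G
  have h1 : (∑ᶠ g : G, single g (a g) : MonoidAlgebra F G) = BR.mk a := by
    rw [finsum_eq_sum_of_fintype]
    ext t
    rw [coeff_sum, Finset.sum_apply', Finset.sum_eq_single t]
    · rw [coeff_single, Finsupp.single_eq_same, mk_coeff]
    · intro b _ hb
      rw [coeff_single, Finsupp.single_apply, if_neg hb]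
    · intro h
      exact absurd (Finset.mem_univ _) h
  rw [h1] at ha
  have h2 : ∑ᶠ g : G, a g * D.rs Φ g = ev (D.rs Φ) (BR.mk a) := rfl
  obtain ⟨n, hn⟩ := ha
  obtain ⟨d, _, π, -, hφ⟩ := mat_of_irr hΦ
  rw [h2, ev_rs, irr_ev hφ]
  have h3 : ∀ m : ℕ, D.ℓ (BR.mk a) ^ (m + 1) = D.ℓ (BR.mk a ^ (m + 1)) := by
    intro m
    induction m with
    | zero => rw [pow_one, pow_one]
    | succ m ih => rw [pow_succ, ih, ← D.sec_mul, ← pow_succ]
  have h4 : D.ℓ (BR.mk a) ^ (n + 1) = 0 := by
    rw [h3, pow_succ, hn, zero_mul]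
    exact map_zero D.ls
  have h5 : IsNilpotent (π (inc T (D.ℓ (BR.mk a)))) :=
    ⟨n + 1, by rw [← map_pow, ← map_pow, h4, map_zero, map_zero]⟩
  exact (Matrix.isNilpotent_trace_of_isNilpotent h5).eq_zero

/-- restriction of irreducible traces -/
theorem rs_irr [IsAlgClosed F] {Φ : Y → F} (hΦ : IsIrrTrace Φ)
    (h1 : ∀ y, ev Φ (tr D.e * y) = ev Φ y) : IsIrrTrace (D.rs Φ) := by
  have h2 : D.rs Φ ∈ Submodule.span F {φ : G → F | IsIrrTrace φ} :=
    Pool.Agent.Y275.NV.wed F G _ (D.rs_class (irr_class hΦ)) (D.rs_nil hΦ)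
  obtain ⟨c, s, hs, -, hsum⟩ := (Submodule.mem_span_iff_exists_finset_subset).1 h2
  have h3 : Φ = ∑ φ ∈ s, c φ • D.L φ := by
    rw [← D.L_rs (irr_class hΦ) h1, ← hsum]
    funext x
    unfold L
    rw [Finset.sum_apply]
    simp only [Pi.smul_apply, smul_eq_mul, Finset.mul_sum]
    rw [Finset.sum_comm]
    refine Finset.sum_congr rfl fun i _ => ?_
    generalize ind D.ψ (single x 1) i i = w
    let l : MonoidAlgebra F G →ₗ[F] F := ∑ φ ∈ s, c φ • ev φ
    have h4 : ev (∑ φ ∈ s, c φ • φ) w = l w := by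
      refine ev_unique (l := l) (fun y => ?_) w
      rw [LinearMap.sum_apply, Finset.sum_apply]
      refine Finset.sum_congr rfl fun φ _ => ?_
      rw [LinearMap.smul_apply, ev_one]
      rfl
    rw [h4, LinearMap.sum_apply]
    rfl
  obtain ⟨φ, hφ, h4⟩ := mem_of_span hΦ s c D.L (fun φ hφ => D.L_irr (hs hφ)) h3
  rw [← h4, D.rs_L (irr_class (hs hφ))]
  exact hs hφ

/-! ### blocks -/

theorem L_block {φ : G → F} {b : MonoidAlgebra F G → F}
    (hb : ∀ w, (∀ z, w * z = z * w) → ∀ z, ev φ (w * z) = b w * ev φ z)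
    (f : MonoidAlgebra F Y) (hf : ∀ y, f * y = y * f) (y : MonoidAlgebra F Y) :
    ev (D.L φ) (f * y) = b (D.ψ (res T f)) * ev (D.L φ) y := by
  rw [ev_L, ev_L, Finset.mul_sum]
  refine Finset.sum_congr rfl fun i _ => ?_
  rw [← hb _ (D.psi_central hf), ind_apply, ind_apply, ← D.psi_mul hf]
  congr 3
  rw [← mul_assoc, ← mul_assoc, ← mul_assoc, hf]

theorem rs_block {Φ : Y → F} {b : MonoidAlgebra F G → F}
    (hb : ∀ f : MonoidAlgebra F Y, (∀ y, f * y = y * f) → ∀ y,
      ev Φ (f * y) = b (D.ψ (res T f)) * ev Φ y)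
    (w : MonoidAlgebra F G) (hw : ∀ z, w * z = z * w) (z : MonoidAlgebra F G) :
    ev (D.rs Φ) (w * z) = b w * ev (D.rs Φ) z := by
  have h1 : ∀ y, D.ℓ w * y = y * D.ℓ w := D.sec_central hw
  have h2 := hb (tr (D.ℓ w)) (tr_central h1) (inc T (D.ℓ z))
  rw [D.psi_tr h1 (D.sec' w), D.sec] at h2
  rw [ev_rs, ev_rs, ← h2, D.sec_mul, map_mul]
  congr 1
  have h3 : inc T (D.ℓ z) = inc T D.e * inc T (D.ℓ z) := by rw [← map_mul, D.sec']
  rw [h3, ← mul_assoc, ← mul_assoc, tr_central h1, D.inc_mul_tr' h1 (D.sec' w), ← map_mul,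
    ← D.central, D.sec']

end Dat

end red

end Pool.Agent.Helper18.NV
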