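import Pool.Agent.Helper18.NV.Loc
import Pool.Agent.Helper18.NV.Tra

/-!
# Separating idempotents
-/

set_option autoImplicit false
set_option linter.unusedSectionVars false
set_option maxHeartbeats 1000000

open scoped Classical
open MonoidAlgebra

noncomputable section

namespace Pool.Agent.Helper18.NV

open Pool.Agent.Helper18.BR Pool.Agent.Helper18.AW
open Pool.Agent.Y63.NV (conv IsClassFun InZ)

section poly

open Polynomial

variable {F : Type} [Field F] {Z : Type} [Ring Z] [Algebra F Z] [FiniteDimensional F Z]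

theorem exists_spec (a : Z) (B : Z →ₐ[F] F) : ∃ f : Z, f * f = f ∧ B f = 1 ∧
    ∀ B₂ : Z →ₐ[F] F, B₂ a ≠ B a → B₂ f = 0 := by
  have hm0 : minpoly F a ≠ 0 := minpoly.ne_zero (Algebra.IsIntegral.isIntegral a)
  obtain ⟨q, hq, hnd⟩ := Polynomial.exists_eq_pow_rootMultiplicity_mul_and_not_dvd
    (minpoly F a) hm0 (B a)
  set k := (minpoly F a).rootMultiplicity (B a) with hk
  have hcop : IsCoprime ((X - C (B a)) ^ k) q :=
    (((Polynomial.irreducible_X_sub_C (B a)).coprime_iff_not_dvd).2 hnd).pow_left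
  obtain ⟨u, v, huv⟩ := hcop
  have hroot : ∀ B₂ : Z →ₐ[F] F, (B₂ a - B a) ^ k * q.eval (B₂ a) = 0 := by
    intro B₂
    have h1 : B₂ (aeval a (minpoly F a)) = 0 := by rw [minpoly.aeval, map_zero]
    rw [← aeval_algHom_apply, hq] at h1
    simpa using h1
  have hk0 : k ≠ 0 := by
    intro h0
    have h1 := hroot B
    rw [h0, pow_zero, one_mul] at h1
    exact hnd (dvd_iff_isRoot.2 h1)
  refine ⟨aeval a (v * q), ?_, ?_, ?_⟩
  · have h1 : (v * q) - (v * q) * (v * q) = (v * u) * minpoly F a := by
      rw [hq]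
      have h2 : (1 : F[X]) - v * q = u * (X - C (B a)) ^ k := by rw [← huv]; ring
      calc v * q - v * q * (v * q) = v * q * (1 - v * q) := by ring
        _ = _ := by rw [h2]; ring
    have h3 := congrArg (aeval a) h1
    rw [map_sub, map_mul (aeval a) (v * q) (v * q), map_mul (aeval a) (v * u), minpoly.aeval,
      mul_zero, sub_eq_zero] at h3
    exact h3.symm
  · rw [← aeval_algHom_apply, coe_aeval_eq_eval]
    have h1 := congrArg (eval (B a)) huv
    simp only [eval_add, eval_mul, eval_pow, eval_sub, eval_X, eval_C, sub_self, eval_one,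
      zero_pow hk0, mul_zero, zero_add] at h1
    rw [eval_mul, h1]
  · intro B₂ hB
    rw [← aeval_algHom_apply, coe_aeval_eq_eval, eval_mul]
    have h1 := hroot B₂
    rcases mul_eq_zero.1 h1 with h2 | h2
    · exact absurd (sub_eq_zero.1 (pow_eq_zero_iff hk0 |>.1 h2)) hB
    · rw [h2, mul_zero]

/-- `z` is an idempotent which separates `B` from the other homomorphisms -/
def SepH (B : Z →ₐ[F] F) (z : Z) : Prop :=
  z * z = z ∧ B z = 1 ∧ ∀ B₂ : Z →ₐ[F] F, B₂ z = 1 → B₂ = B

theorem exists_sepH (hc : ∀ a b : Z, a * b = b * a) (B : Z →ₐ[F] F) : ∃ z, SepH B z := by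
  let P : ℕ → Prop := fun n => ∃ e : Z, e * e = e ∧ B e = 1 ∧
    Module.finrank F (LinearMap.range (LinearMap.mulLeft F e)) = n
  have hP : ∃ n, P n := ⟨_, 1, mul_one 1, map_one B, rfl⟩
  obtain ⟨e, he, hBe, hn⟩ := Nat.find_spec hP
  refine ⟨e, he, hBe, fun B₂ h2 => ?_⟩
  ext a
  by_contra hne
  obtain ⟨f, hf, hBf, hf2⟩ := exists_spec a B
  have hef : e * f * (e * f) = e * f := by
    rw [mul_assoc, ← mul_assoc f, hc f e, mul_assoc e f f, hf, ← mul_assoc, he]
  have hle : LinearMap.range (LinearMap.mulLeft F (e * f)) ≤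
      LinearMap.range (LinearMap.mulLeft F e) := by
    rintro _ ⟨y, rfl⟩
    exact ⟨f * y, by simp only [LinearMap.mulLeft_apply, mul_assoc]⟩
  have h3 : Nat.find hP ≤ Module.finrank F (LinearMap.range (LinearMap.mulLeft F (e * f))) :=
    Nat.find_min' hP ⟨e * f, hef, by rw [map_mul, hBe, hBf, mul_one], rfl⟩
  have h4 := Submodule.eq_of_le_of_finrank_le hle (by rw [hn]; exact h3)
  have h5 : e ∈ LinearMap.range (LinearMap.mulLeft F (e * f)) := by
    rw [h4]
    exact ⟨1, by rw [LinearMap.mulLeft_apply, mul_one]⟩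
  obtain ⟨y, hy⟩ := h5
  rw [LinearMap.mulLeft_apply] at hy
  have h6 : e * f = e := by
    calc e * f = f * e := hc _ _
      _ = f * (e * f * y) := by rw [hy]
      _ = e * (f * f) * y := by rw [← mul_assoc, ← mul_assoc, hc f e, mul_assoc e f f]
      _ = e := by rw [hf, hy]
  have h7 := h2
  rw [← h6, map_mul, hf2 B₂ hne, mul_zero] at h7
  exact zero_ne_one h7

end poly

section cl

variable {J : Type} [Group J] [Finite J] {F : Type} [Field F]

theorem class_of_cj {a : MonoidAlgebra F J} (h : ∀ x, cj x a = a) :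
    IsClassFun (fun x => a.coeff x) := by
  have : Fintype J := Fintype.ofFinite _
  exact cf_of_central h

theorem cj_mk' {f : J → F} (h : IsClassFun f) (x : J) : cj x (mk f) = (mk f : MonoidAlgebra F J) := by
  have : Fintype J := Fintype.ofFinite _
  exact cj_mk h x

end cl

section zs

variable {F : Type} [Field F] {Γ : Type} [Group Γ] [Finite Γ]

/-- the central elements supported on `G` -/
def Zs (F : Type) [Field F] (G : Subgroup Γ) : Subalgebra F (MonoidAlgebra F Γ) where
  carrier := {a | (∀ x, cj x a = a) ∧ ∀ x, x ∉ G → a.coeff x = 0}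
  mul_mem' := by
    rintro a b ⟨ha, ha'⟩ ⟨hb, hb'⟩
    have : Fintype Γ := Fintype.ofFinite _
    refine ⟨fun x => by rw [cj_hom, ha, hb], fun x hx => ?_⟩
    rw [coeff_mul_sum]
    refine Finset.sum_eq_zero fun y _ => ?_
    by_cases hy : y ∈ G
    · rw [hb' _ (fun h => hx ?_), mul_zero]
      have := G.mul_mem hy h
      rwa [mul_inv_cancel_left] at this
    · rw [ha' _ hy, zero_mul]
  add_mem' := by
    rintro a b ⟨ha, ha'⟩ ⟨hb, hb'⟩
    exact ⟨fun x => by rw [cj_add, ha, hb], fun x hx => by
      rw [coeff_add, Finsupp.add_apply, ha' x hx, hb' x hx, add_zero]⟩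
  algebraMap_mem' := by
    intro r
    refine ⟨fun x => cj_of_central (fun y => Algebra.commutes r y) x, fun x hx => ?_⟩
    have h1 : (algebraMap F (MonoidAlgebra F Γ) r) = single 1 r := rfl
    rw [h1, coeff_single, Finsupp.single_apply, if_neg]
    rintro rfl
    exact hx G.one_mem

variable {G : Subgroup Γ}

theorem zs_central (a : Zs F G) (y : MonoidAlgebra F Γ) : a.1 * y = y * a.1 :=
  central_of_cj a.2.1 y

theorem zs_comm (a b : Zs F G) : a * b = b * a := Subtype.ext (zs_central a b.1)

theorem zs_inZ (a : Zs F G) : InZ G (fun x => a.1.coeff x) :=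
  ⟨fun g x => class_of_cj a.2.1 g x, a.2.2⟩

/-- the element of a function -/
def zsOf {z : Γ → F} (hz : InZ G z) : Zs F G :=
  ⟨mk z, fun x => cj_mk' hz.conj x, fun x hx => hz.supp x hx⟩

/-- the value of a block at an element of the group algebra -/
def bv {J : Type} [Group J] (B : (J → F) → F) (a : MonoidAlgebra F J) : F :=
  B (fun x => a.coeff x)

variable {J : Type} [Group J] [Finite J] {B : (J → F) → F} (hB : Pool.Agent.Y63.NV.IsBlock B)

include hB

theorem bv_add {a b : MonoidAlgebra F J} (ha : ∀ x, cj x a = a) (hb : ∀ x, cj x b = b) :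
    bv B (a + b) = bv B a + bv B b :=
  hB.add _ _ (class_of_cj ha) (class_of_cj hb)

theorem bv_smul (c : F) {a : MonoidAlgebra F J} (ha : ∀ x, cj x a = a) :
    bv B (c • a) = c * bv B a := hB.smul c _ (class_of_cj ha)

theorem bv_one : bv B 1 = 1 := by
  have h : (fun x : J => (1 : MonoidAlgebra F J).coeff x) = Pi.single 1 1 := by
    funext x
    rw [one_def, coeff_single, Finsupp.single_apply, Pi.single_apply]
    simp only [eq_comm]
  unfold bv
  rw [h]
  exact hB.one

theorem bv_mul {a b : MonoidAlgebra F J} (ha : ∀ x, cj x a = a) (hb : ∀ x, cj x b = b) :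
    bv B (a * b) = bv B a * bv B b := by
  have : Fintype J := Fintype.ofFinite _
  unfold bv
  rw [← hB.mul _ _ (class_of_cj ha) (class_of_cj hb), Pool.Agent.Y930.NV.cv_eq_conv]
  congr 1
  funext x
  exact coeff_mul_sum a b x

theorem bv_zero : bv B 0 = 0 := by
  have h := bv_smul hB 0 (a := (1 : MonoidAlgebra F J)) (cj_of_central (fun y => by
    rw [one_mul, mul_one]))
  rwa [zero_smul, zero_mul] at h

omit hB

/-- a block of the whole group as a homomorphism -/
def homT {C : (Γ → F) → F} (hC : Pool.Agent.Y63.NV.IsBlock C) (G : Subgroup Γ) :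
    Zs F G →ₐ[F] F where
  toFun a := bv C a.1
  map_one' := bv_one hC
  map_mul' a b := bv_mul hC a.2.1 b.2.1
  map_zero' := bv_zero hC
  map_add' a b := bv_add hC a.2.1 b.2.1
  commutes' r := by
    have h1 : ((algebraMap F (Zs F G) r : Zs F G) : MonoidAlgebra F Γ) = r • 1 := by
      rw [Algebra.algebraMap_eq_smul_one]
      rfl
    rw [h1, bv_smul hC _ (cj_of_central (fun y => by rw [one_mul, mul_one])), bv_one hC, mul_one]
    rfl

theorem homT_apply {C : (Γ → F) → F} (hC : Pool.Agent.Y63.NV.IsBlock C) (a : Zs F G) :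
    homT hC G a = bv C a.1 := rfl

theorem res_cj (a : Zs F G) (x : G) : cj x (res G a.1) = res G a.1 := by
  ext y
  rw [cj_coeff, res_coeff, res_coeff]
  have := (zs_inZ a).conj (x : Γ)⁻¹ y
  rw [inv_inv] at this
  exact this

theorem inc_res (a : Zs F G) : inc G (res G a.1) = a.1 := by
  ext y
  rw [inc_coeff]
  split_ifs with h
  · rfl
  · exact (a.2.2 y h).symm

/-- a block of the subgroup as a homomorphism -/
def homS {B : (G → F) → F} (hB : Pool.Agent.Y63.NV.IsBlock B) : Zs F G →ₐ[F] F where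
  toFun a := bv B (res G a.1)
  map_one' := by
    have h1 : res G ((1 : Zs F G) : MonoidAlgebra F Γ) = 1 := by
      have h2 : ((1 : Zs F G) : MonoidAlgebra F Γ) = inc G 1 := (map_one _).symm
      rw [h2, res_inc]
    rw [h1]
    exact bv_one hB
  map_mul' a b := by
    have h1 : res G ((a * b : Zs F G) : MonoidAlgebra F Γ) = res G a.1 * res G b.1 := by
      have h2 : ((a * b : Zs F G) : MonoidAlgebra F Γ) = inc G (res G a.1 * res G b.1) := by
        rw [map_mul, inc_res, inc_res]
        rfl
      rw [h2, res_inc]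
    rw [h1]
    exact bv_mul hB (res_cj a) (res_cj b)
  map_zero' := bv_zero hB
  map_add' a b := bv_add hB (res_cj a) (res_cj b)
  commutes' r := by
    have h1 : res G ((algebraMap F (Zs F G) r : Zs F G) : MonoidAlgebra F Γ) = r • 1 := by
      have h2 : ((algebraMap F (Zs F G) r : Zs F G) : MonoidAlgebra F Γ) = inc G (r • 1) := by
        rw [Algebra.algebraMap_eq_smul_one, map_smul, map_one]
        rfl
      rw [h2, res_inc]
    rw [h1, bv_smul hB _ (cj_of_central (fun y => by rw [one_mul, mul_one])), bv_one hB, mul_one]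
    rfl

theorem homS_apply {B : (G → F) → F} (hB : Pool.Agent.Y63.NV.IsBlock B) (a : Zs F G) :
    homS hB a = bv B (res G a.1) := rfl

theorem sepr_of_sepH {B : (G → F) → F} (hB : Pool.Agent.Y63.NV.IsBlock B) {z : Zs F G}
    (hz : SepH (homS hB) z) : Sepr G B (fun x => z.1.coeff x) := by
  intro C hC
  constructor
  · intro h y hy
    have h1 := hz.2.2 (homT hC G) h
    exact congrArg (fun φ : Zs F G →ₐ[F] F => φ (zsOf hy)) h1
  · intro h
    rw [h _ (zs_inZ z)]
    exact hz.2.1

end zs

end Pool.Agent.Helper18.NV
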